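import Pool.Agent.H64.Slab.Heart

set_option autoImplicit false

open MeasureTheory Set Filter Topology Complex

namespace Pool.Agent.H64.Slab

theorem h1_continuous : Continuous h1 := by unfold h1; fun_prop

theorem h2_continuous : Continuous h2 := by
  unfold h2
  apply Continuous.inv₀ (by fun_prop)
  intro u; positivity

theorem h2_integrable : Integrable h2 := by
  have h := (integrable_inv_one_add_sq).comp_mul_left' (R := (Real.sqrt 7)⁻¹)
    (inv_ne_zero (Real.sqrt_pos.2 (by norm_num)).ne')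
  refine Integrable.mono' h h2_continuous.aestronglyMeasurable (Eventually.of_forall fun u => ?_)
  unfold h2
  rw [Real.norm_of_nonneg (by positivity)]
  have e : ((Real.sqrt 7)⁻¹ * u) ^ 2 = u ^ 2 / 7 := by
    rw [mul_pow, inv_pow, sq7]; ring
  rw [e]
  apply inv_anti₀ (by positivity)
  nlinarith [show 0 ≤ u ^ 2 / 7 by positivity]

/-- the comparison function. -/
noncomputable def FF (v : ℝ) : ℝ := if v ≤ Real.sqrt 3 then h1 v else - h2 v

theorem FF_abs_eq : (fun u : ℝ => FF |u|) = fun u =>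
    (Icc (-Real.sqrt 3) (Real.sqrt 3)).indicator (fun u => h1 |u|) u -
      ((Icc (-Real.sqrt 3) (Real.sqrt 3))ᶜ).indicator h2 u := by
  ext u
  unfold FF
  by_cases h : |u| ≤ Real.sqrt 3
  · have hu : u ∈ Icc (-Real.sqrt 3) (Real.sqrt 3) := abs_le.1 h
    rw [if_pos h, indicator_of_mem hu, indicator_of_notMem (by simpa using hu)]
    ring
  · have hu : u ∉ Icc (-Real.sqrt 3) (Real.sqrt 3) := fun hh => h (abs_le.2 hh)
    rw [if_neg h, indicator_of_notMem hu, indicator_of_mem hu]
    unfold h2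
    rw [sq_abs]
    ring

theorem FF_abs_integrable : Integrable (fun u : ℝ => FF |u|) := by
  rw [FF_abs_eq]
  apply Integrable.sub
  · rw [integrable_indicator_iff measurableSet_Icc]
    exact (h1_continuous.comp continuous_abs).continuousOn.integrableOn_compact isCompact_Icc
  · exact h2_integrable.indicator measurableSet_Icc.compl

theorem FF_integral_pos : 0 < ∫ u : ℝ, FF |u| := by
  rw [integral_comp_abs]
  have h3 : 0 ≤ Real.sqrt 3 := Real.sqrt_nonneg 3
  have hsplit : Ioi (0 : ℝ) = Ioc 0 (Real.sqrt 3) ∪ Ioi (Real.sqrt 3) := (Ioc_union_Ioi_eq_Ioi h3).symm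
  have e1 : ∀ u ∈ Ioc (0 : ℝ) (Real.sqrt 3), FF u = h1 u := by
    intro u hu; unfold FF; rw [if_pos hu.2]
  have e2 : ∀ u ∈ Ioi (Real.sqrt 3), FF u = - h2 u := by
    intro u hu; unfold FF; rw [if_neg (not_le.2 hu)]
  have i1 : IntegrableOn FF (Ioc 0 (Real.sqrt 3)) := by
    refine IntegrableOn.congr_fun ?_ (fun u hu => (e1 u hu).symm) measurableSet_Ioc
    exact (h1_continuous.continuousOn.integrableOn_compact (isCompact_Icc (a := 0)
      (b := Real.sqrt 3))).mono_set Ioc_subset_Icc_self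
  have i2 : IntegrableOn FF (Ioi (Real.sqrt 3)) := by
    refine IntegrableOn.congr_fun (h2_tail.1.neg) (fun u hu => (e2 u hu).symm) measurableSet_Ioi
  rw [hsplit, setIntegral_union (Ioc_disjoint_Ioi le_rfl) measurableSet_Ioi i1 i2,
    setIntegral_congr_fun measurableSet_Ioc e1, setIntegral_congr_fun measurableSet_Ioi e2,
    integral_neg, h2_tail.2, ← intervalIntegral.integral_of_le h3,
    intervalIntegral.integral_eq_sub_of_hasDerivAt (fun x _ => hasDerivAt_H1 x)
      (h1_continuous.intervalIntegrable _ _)]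
  have h := numeric
  have h0 : H1 0 = 0 := by unfold H1; norm_num
  rw [h0]
  linarith

theorem AA_integrable {m : ℕ} {l : Fin m → ℝ} (hl : ∀ j, 0 < l j) (hΩ : 7 ≤ Om l) :
    Integrable (AA l) := by
  refine Integrable.mono' integrable_inv_one_add_sq (AA_continuous hl).aestronglyMeasurable
    (Eventually.of_forall fun ζ => ?_)
  refine le_trans (norm_AA_le hl ζ) ?_
  rw [← Real.rpow_neg_one]
  apply Real.rpow_le_rpow_of_exponent_le
  · nlinarith [sq_nonneg ζ]
  · linarith

theorem FF_le {m : ℕ} {l : Fin m → ℝ} (hl : ∀ j, 0 < l j) (hΩ : 7 ≤ Om l) (u : ℝ) :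
    FF |u| ≤ (AA l (u / Real.sqrt (Om l))).re := by
  unfold FF
  by_cases h : |u| ≤ Real.sqrt 3
  · rw [if_pos h]; exact near_bound hl hΩ h
  · rw [if_neg h]
    have h1 := far_bound hl hΩ u
    have h2' := Complex.abs_re_le_norm (AA l (u / Real.sqrt (Om l)))
    have h3 := neg_abs_le (AA l (u / Real.sqrt (Om l))).re
    have h4 : h2 |u| = h2 u := by unfold h2; rw [sq_abs]
    rw [h4]
    linarith

/-- the positivity of the tilted Fourier integral. -/
theorem heart {m : ℕ} {l : Fin m → ℝ} (hl : ∀ j, 0 < l j) (hΩ : 7 ≤ Om l) :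
    0 < ∫ ζ : ℝ, (AA l ζ).re := by
  have hΩ0 : 0 < Real.sqrt (Om l) := Real.sqrt_pos.2 (by linarith)
  have hint := (AA_integrable hl hΩ).re
  have hint' : Integrable (fun u : ℝ => (AA l (u / Real.sqrt (Om l))).re) := by
    have := hint.comp_div hΩ0.ne'
    exact this
  have h1 : ∫ u : ℝ, FF |u| ≤ ∫ u : ℝ, (AA l (u / Real.sqrt (Om l))).re :=
    integral_mono FF_abs_integrable hint' (fun u => FF_le hl hΩ u)
  have h2 : ∫ u : ℝ, (AA l (u / Real.sqrt (Om l))).re =
      |Real.sqrt (Om l)| • ∫ ζ : ℝ, (AA l ζ).re :=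
    Measure.integral_comp_div (fun ζ => (AA l ζ).re) (Real.sqrt (Om l))
  rw [h2, abs_of_pos hΩ0, smul_eq_mul] at h1
  have h3 := lt_of_lt_of_le FF_integral_pos h1
  exact (pos_iff_pos_of_mul_pos h3).1 hΩ0

end Pool.Agent.H64.Slab
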