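import Pool.Agent.H64.Slab.Psi

set_option autoImplicit false

open Set Filter Topology

namespace Pool.Agent.H64.Slab

theorem Omθ_continuousOn {m : ℕ} (b : Fin m → ℝ) (hb : ∀ j, 0 < b j) :
    ContinuousOn (fun θ : ℝ => ∑ j, om (θ * b j)) (Ioi 0) := by
  apply continuousOn_finsetSum
  intro j _
  exact om_continuousOn.comp (by fun_prop) (fun θ hθ => mul_pos hθ (hb j))

theorem chθ_continuousOn {m : ℕ} (b : Fin m → ℝ) (hb : ∀ j, 0 < b j) :
    ContinuousOn (fun θ : ℝ => ∑ j, ch (θ * b j)) (Ioi 0) := by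
  apply continuousOn_finsetSum
  intro j _
  exact ch_continuousOn.comp (by fun_prop) (fun θ hθ => mul_pos hθ (hb j))

theorem exists_theta {m : ℕ} (b : Fin m → ℝ) (hb : ∀ j, 0 < b j) {x : ℝ}
    (hx : Real.sqrt 7 * Real.sqrt (∑ j, b j ^ 2) ≤ x) (hxS : x < ∑ j, b j) :
    ∃ θ : ℝ, 0 < θ ∧ θ * x = 3 + ∑ j, ch (θ * b j) ∧ 7 ≤ ∑ j, om (θ * b j) := by
  set S := ∑ j, b j with hS
  set V := ∑ j, b j ^ 2 with hV
  have h7 : 0 < Real.sqrt 7 := Real.sqrt_pos.2 (by norm_num)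
  have hV0 : 0 ≤ V := Finset.sum_nonneg (fun j _ => sq_nonneg _)
  -- m ≥ 8
  have hm : 8 ≤ m := by
    have h1 : S ≤ Real.sqrt m * Real.sqrt V := by
      have h2 : S ^ 2 ≤ m * V := by
        have := sq_sum_le_card_mul_sum_sq (s := (Finset.univ : Finset (Fin m))) (f := b)
        simpa using this
      rw [← Real.sqrt_mul (Nat.cast_nonneg m)]
      exact Real.le_sqrt_of_sq_le h2
    have h3 : Real.sqrt 7 * Real.sqrt V < Real.sqrt m * Real.sqrt V :=
      lt_of_le_of_lt hx (lt_of_lt_of_le hxS h1)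
    have h4 : 0 < Real.sqrt V := by
      by_contra hcon
      have : Real.sqrt V = 0 := le_antisymm (not_lt.1 hcon) (Real.sqrt_nonneg _)
      rw [this] at h3
      simp at h3
    have h5 : Real.sqrt 7 < Real.sqrt m := lt_of_mul_lt_mul_right h3 h4.le
    have h6 : (7 : ℝ) < m := by
      by_contra hcon
      exact absurd (Real.sqrt_le_sqrt (not_lt.1 hcon)) (not_le.2 h5)
    have h7 : 7 < m := by exact_mod_cast h6
    omega
  have hx0 : 0 ≤ x := le_trans (by positivity) hx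
  have hS0 : 0 < S := lt_of_le_of_lt hx0 hxS
  -- small theta
  set ε : ℝ := 1 / (1 + V) with hε
  have hε0 : 0 < ε := by positivity
  have hsmall : ∑ j, om (ε * b j) ≤ 7 := by
    have h1 : ∑ j, om (ε * b j) ≤ ∑ j, (ε * b j) ^ 2 / 3 :=
      Finset.sum_le_sum (fun j _ => om_le (mul_pos hε0 (hb j)))
    have h2 : ∑ j, (ε * b j) ^ 2 / 3 = ε ^ 2 * V / 3 := by
      rw [hV, Finset.mul_sum, Finset.sum_div]
      apply Finset.sum_congr rfl; intro j _; ring
    have h3 : ε ^ 2 * V ≤ 1 := by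
      rw [hε, div_pow, one_pow, div_mul_eq_mul_div, one_mul, div_le_one (by positivity)]
      nlinarith
    linarith
  -- large theta
  set M : ℝ := ε + ∑ j, 6 / b j with hM
  have hMj : ∀ j, 6 ≤ M * b j := by
    intro j
    have h1 : 6 / b j ≤ M := by
      have h2 : 6 / b j ≤ ∑ j, 6 / b j :=
        Finset.single_le_sum (f := fun j => 6 / b j) (fun i _ => (div_pos (by norm_num) (hb i)).le)
          (Finset.mem_univ j)
      linarith
    have := mul_le_mul_of_nonneg_right h1 (hb j).le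
    rwa [div_mul_cancel₀ _ (hb j).ne'] at this
  have hMε : ε ≤ M := by
    have : 0 ≤ ∑ j, 6 / b j := Finset.sum_nonneg (fun i _ => (div_pos (by norm_num) (hb i)).le)
    linarith
  have hlarge : 7 ≤ ∑ j, om (M * b j) := by
    have h1 : ∀ j, (9 / 10 : ℝ) ≤ om (M * b j) := by
      intro j
      have h2 := hMj j
      have h3 := om_ge (l := M * b j) (by linarith)
      refine le_trans ?_ h3
      rw [div_le_div_iff₀ (by norm_num) (by positivity)]
      nlinarith
    have h2 : ∑ j : Fin m, (9 / 10 : ℝ) ≤ ∑ j, om (M * b j) := Finset.sum_le_sum (fun j _ => h1 j)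
    simp only [Finset.sum_const, Finset.card_univ, Fintype.card_fin, nsmul_eq_mul] at h2
    have h3 : (8 : ℝ) ≤ m := by exact_mod_cast hm
    nlinarith
  -- intermediate value
  obtain ⟨θ0, hθ0, hθ0e⟩ := intermediate_value_Icc hMε
    ((Omθ_continuousOn b hb).mono (fun x hx => lt_of_lt_of_le hε0 hx.1)) ⟨hsmall, hlarge⟩
  simp only at hθ0e
  have hθ0p : 0 < θ0 := lt_of_lt_of_le hε0 hθ0.1
  have hf0 : 3 + ∑ j, ch (θ0 * b j) ≤ θ0 * x := by
    have e1 : 3 + ∑ j, ch (θ0 * b j) = ∑ j, (ch (θ0 * b j) + 3 / 7 * om (θ0 * b j)) := by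
      rw [Finset.sum_add_distrib, ← Finset.mul_sum, hθ0e]; ring
    rw [e1]
    have h1 : ∑ j, (ch (θ0 * b j) + 3 / 7 * om (θ0 * b j)) ≤
        ∑ j, (θ0 * b j) * Real.sqrt (om (θ0 * b j)) :=
      Finset.sum_le_sum (fun j _ => ch_add_le (mul_pos hθ0p (hb j)) (by norm_num))
    have h2 : ∑ j, (θ0 * b j) * Real.sqrt (om (θ0 * b j)) ≤
        Real.sqrt (∑ j, (θ0 * b j) ^ 2) * Real.sqrt (∑ j, Real.sqrt (om (θ0 * b j)) ^ 2) :=
      Real.sum_mul_le_sqrt_mul_sqrt _ _ _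
    have h3 : ∑ j, Real.sqrt (om (θ0 * b j)) ^ 2 = 7 := by
      rw [← hθ0e]
      apply Finset.sum_congr rfl
      intro j _
      exact Real.sq_sqrt (om_nonneg (mul_pos hθ0p (hb j)))
    have h4 : Real.sqrt (∑ j, (θ0 * b j) ^ 2) = θ0 * Real.sqrt V := by
      have e : ∑ j, (θ0 * b j) ^ 2 = θ0 ^ 2 * V := by
        rw [hV, Finset.mul_sum]
        apply Finset.sum_congr rfl; intro j _; ring
      rw [e, Real.sqrt_mul (by positivity), Real.sqrt_sq hθ0p.le]
    rw [h3, h4] at h2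
    have h5 : θ0 * Real.sqrt V * Real.sqrt 7 ≤ θ0 * x := by
      have := mul_le_mul_of_nonneg_left hx hθ0p.le
      linarith
    linarith
  set θ1 : ℝ := θ0 + m / (S - x) with hθ1
  have hSx : 0 < S - x := by linarith
  have hθ01 : θ0 ≤ θ1 := by
    have : 0 ≤ (m : ℝ) / (S - x) := by positivity
    linarith
  have hθ1p : 0 < θ1 := lt_of_lt_of_le hθ0p hθ01
  have hf1 : θ1 * x ≤ 3 + ∑ j, ch (θ1 * b j) := by
    have h1 : ∑ j, (θ1 * b j - 1) ≤ ∑ j, ch (θ1 * b j) :=
      Finset.sum_le_sum (fun j _ => ch_ge (mul_pos hθ1p (hb j)))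
    rw [Finset.sum_sub_distrib, ← Finset.mul_sum, ← hS] at h1
    simp only [Finset.sum_const, Finset.card_univ, Fintype.card_fin, nsmul_eq_mul, mul_one] at h1
    have h2 : (m : ℝ) ≤ θ1 * (S - x) := by
      have : (m : ℝ) / (S - x) ≤ θ1 := by linarith
      rwa [div_le_iff₀ hSx] at this
    nlinarith
  have hcont : ContinuousOn (fun θ : ℝ => θ * x - (3 + ∑ j, ch (θ * b j))) (Icc θ0 θ1) := by
    apply ContinuousOn.sub (by fun_prop)
    apply ContinuousOn.add continuousOn_const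
    exact (chθ_continuousOn b hb).mono (fun x hx => lt_of_lt_of_le hθ0p hx.1)
  obtain ⟨θ, hθ, hθe⟩ := intermediate_value_Icc' hθ01 hcont
    (show (0 : ℝ) ∈ Icc _ _ from ⟨by linarith, by linarith⟩)
  simp only at hθe
  have hθp : 0 < θ := lt_of_lt_of_le hθ0p hθ.1
  refine ⟨θ, hθp, by linarith, ?_⟩
  rw [← hθ0e]
  apply Finset.sum_le_sum
  intro j _
  exact om_mono (mul_pos hθ0p (hb j)) (mul_le_mul_of_nonneg_right hθ.1 (hb j).le)

end Pool.Agent.H64.Slab
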