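import Pool.Agent.H64.Slab.Lap
import Pool.Agent.H64.Slab.Heart2
import Pool.Agent.H64.Slab.Saddle

set_option autoImplicit false

open MeasureTheory Set Filter Topology Complex

namespace Pool.Agent.H64.Slab

/-- iterated central differences. -/
noncomputable def cdiff : {m : ℕ} → (Fin m → ℝ) → (ℝ → ℝ) → ℝ → ℝ
  | 0, _, f, y => f y
  | _ + 1, b, f, y => cdiff (fun j => b j.succ) f (y + b 0) - cdiff (fun j => b j.succ) f (y - b 0)

theorem cdiff_zero (b : Fin 0 → ℝ) (f : ℝ → ℝ) (y : ℝ) : cdiff b f y = f y := rfl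

theorem cdiff_succ {m : ℕ} (b : Fin (m + 1) → ℝ) (f : ℝ → ℝ) (y : ℝ) :
    cdiff b f y = cdiff (fun j => b j.succ) f (y + b 0) - cdiff (fun j => b j.succ) f (y - b 0) := rfl

theorem cdiff_hasDerivAt : ∀ {m : ℕ} (b : Fin m → ℝ) {f f' : ℝ → ℝ}
    (_ : ∀ y, HasDerivAt f (f' y) y) (y : ℝ), HasDerivAt (cdiff b f) (cdiff b f' y) y := by
  intro m
  induction m with
  | zero => intro b f f' h y; exact h y
  | succ m ih =>
    intro b f f' h y
    have h1 := (ih (fun j => b j.succ) h (y + b 0)).comp_add_const y (b 0)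
    have h2 := (ih (fun j => b j.succ) h (y - b 0)).comp_sub_const y (b 0)
    exact h1.sub h2

theorem cdiff_zero_of_nonpos {m : ℕ} (b : Fin m → ℝ) (hb : ∀ j, 0 ≤ b j) {f : ℝ → ℝ}
    (hf : ∀ y, y ≤ 0 → f y = 0) : ∀ y, y + ∑ j, b j ≤ 0 → cdiff b f y = 0 := by
  induction m with
  | zero => intro y hy; rw [cdiff_zero]; apply hf; simpa using hy
  | succ m ih =>
    intro y hy
    rw [Fin.sum_univ_succ] at hy
    have hb0 := hb 0
    rw [cdiff_succ, ih (fun j => b j.succ) (fun j => hb _) (y + b 0) (by linarith),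
      ih (fun j => b j.succ) (fun j => hb _) (y - b 0) (by linarith), sub_zero]

/-- integrand of the inversion formula. -/
noncomputable def Ker {m : ℕ} (b : Fin m → ℝ) (k : ℕ) (θ y ξ : ℝ) : ℂ :=
  (∏ j, (2 * Complex.sinh (b j * ((θ : ℂ) + ξ * I)))) *
    (cexp (((θ : ℂ) + (ξ : ℂ) * I) * y) / ((θ : ℂ) + (ξ : ℂ) * I) ^ (k + 1))

theorem Ker_succ {m : ℕ} (b : Fin (m + 1) → ℝ) (k : ℕ) (θ y ξ : ℝ) :
    Ker b k θ y ξ = Ker (fun j => b j.succ) k θ (y + b 0) ξ - Ker (fun j => b j.succ) k θ (y - b 0) ξ := by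
  unfold Ker
  rw [Fin.prod_univ_succ]
  set z := (θ : ℂ) + (ξ : ℂ) * I
  have e1 : 2 * Complex.sinh (b 0 * z) = cexp (b 0 * z) - cexp (-(b 0 * z)) := by
    unfold Complex.sinh; ring
  have e2 : cexp (z * ((y + b 0 : ℝ) : ℂ)) = cexp (z * y) * cexp (b 0 * z) := by
    rw [← Complex.exp_add]; congr 1; push_cast; ring
  have e3 : cexp (z * ((y - b 0 : ℝ) : ℂ)) = cexp (z * y) * cexp (-(b 0 * z)) := by
    rw [← Complex.exp_add]; congr 1; push_cast; ring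
  rw [e1, e2, e3]
  ring

theorem cdiff_inv {k : ℕ} (hk : 1 ≤ k) {θ : ℝ} (hθ : 0 < θ) :
    ∀ {m : ℕ} (b : Fin m → ℝ) (y : ℝ), Integrable (Ker b k θ y) ∧
    (2 * Real.pi : ℂ) * (cdiff b (ptr k) y : ℂ) = ∫ ξ : ℝ, Ker b k θ y ξ := by
  intro m
  induction m with
  | zero =>
    intro b y
    have e : Ker b k θ y = fun ξ : ℝ => cexp (((θ : ℂ) + (ξ : ℂ) * I) * y) /
        ((θ : ℂ) + (ξ : ℂ) * I) ^ (k + 1) := by
      ext ξ; unfold Ker; simp
    rw [e]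
    exact ⟨ptr_inv_integrable hk hθ y, ptr_inv hk hθ y⟩
  | succ m ih =>
    intro b y
    obtain ⟨i1, e1⟩ := ih (fun j => b j.succ) (y + b 0)
    obtain ⟨i2, e2⟩ := ih (fun j => b j.succ) (y - b 0)
    have e : Ker b k θ y = fun ξ => Ker (fun j => b j.succ) k θ (y + b 0) ξ -
        Ker (fun j => b j.succ) k θ (y - b 0) ξ := by
      ext ξ; exact Ker_succ b k θ y ξ
    rw [e]
    refine ⟨i1.sub i2, ?_⟩
    rw [integral_sub i1 i2, ← e1, ← e2, cdiff_succ]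
    push_cast
    ring

/-- rewriting of the kernel through the centred characteristic functions. -/
theorem Ker_eq {n : ℕ} (b : Fin (n + 4) → ℝ) (hb : ∀ j, 0 < b j) {θ x : ℝ} (hθ : 0 < θ)
    (hsad : θ * x = 3 + ∑ j, ch (θ * b j)) (ζ : ℝ) :
    Ker b n θ (-x) (θ * ζ) =
      (((∏ j, (2 * Real.sinh (θ * b j))) * Real.exp (-(θ * x)) / θ ^ (n + 1) : ℝ) : ℂ) *
        AA (fun j => θ * b j) ζ := by
  have hc := one_add_I_ne ζ
  have hθc : (θ : ℂ) ≠ 0 := by exact_mod_cast hθ.ne'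
  have hz : (θ : ℂ) + ((θ * ζ : ℝ) : ℂ) * I = θ * (1 + ζ * I) := by push_cast; ring
  unfold Ker
  rw [hz]
  have e1 : ∀ j, 2 * Complex.sinh (b j * (θ * (1 + ζ * I))) =
      ((2 * Real.sinh (θ * b j) : ℝ) : ℂ) * (1 + ζ * I) *
        (psi (θ * b j) ζ * cexp ((ch (θ * b j) * ζ : ℝ) * I)) := by
    intro j
    have hs : (Real.sinh (θ * b j) : ℂ) ≠ 0 := by
      exact_mod_cast (sinh_pos (mul_pos hθ (hb j))).ne'
    unfold psi
    rw [mul_assoc (Complex.sinh _ / _), ← Complex.exp_add]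
    have e : -(ch (θ * b j) * ζ : ℝ) * I + (ch (θ * b j) * ζ : ℝ) * I = 0 := by ring
    rw [e, Complex.exp_zero, mul_one]
    have e3 : (b j : ℂ) * (θ * (1 + ζ * I)) = ((θ * b j : ℝ) : ℂ) * (1 + ζ * I) := by
      push_cast; ring
    rw [e3]
    push_cast
    push_cast at hs
    field_simp
  rw [Finset.prod_congr rfl (fun j _ => e1 j), Finset.prod_mul_distrib, Finset.prod_mul_distrib,
    Finset.prod_mul_distrib, Finset.prod_const, Finset.card_univ, Fintype.card_fin]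
  have e2 : ∏ j, cexp ((ch (θ * b j) * ζ : ℝ) * I) = cexp (((θ * x - 3) * ζ : ℝ) * I) := by
    rw [← Complex.exp_sum]
    congr 1
    rw [← Finset.sum_mul, ← Complex.ofReal_sum, ← Finset.sum_mul]
    congr 3
    linarith
  rw [e2]
  have e3 : cexp (θ * (1 + ζ * I) * ((-x : ℝ) : ℂ)) =
      cexp (((-(θ * x) : ℝ) : ℂ)) * cexp ((-(θ * x * ζ) : ℝ) * I) := by
    rw [← Complex.exp_add]; congr 1; push_cast; ring
  have e4 : cexp (((θ * x - 3) * ζ : ℝ) * I) * cexp ((-(θ * x * ζ) : ℝ) * I) =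
      cexp (-(3 * ζ : ℝ) * I) := by
    rw [← Complex.exp_add]; congr 1; push_cast; ring
  unfold AA QQ Psi
  rw [e3, ← e4]
  push_cast
  have hp : (1 + (ζ : ℂ) * I) ^ (n + 4) = (1 + (ζ : ℂ) * I) ^ (n + 1) * (1 + (ζ : ℂ) * I) ^ 3 := by
    rw [← pow_add]
  rw [hp, mul_pow]
  have h1 : (1 + (ζ : ℂ) * I) ^ (n + 1) ≠ 0 := pow_ne_zero _ hc
  have h2 : (θ : ℂ) ^ (n + 1) ≠ 0 := pow_ne_zero _ hθc
  field_simp

/-- **Sign theorem.** -/
theorem cdiff_nonneg {n : ℕ} (hn : 1 ≤ n) (b : Fin (n + 4) → ℝ) (hb : ∀ j, 0 < b j) {x : ℝ}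
    (hx : Real.sqrt 7 * Real.sqrt (∑ j, b j ^ 2) ≤ x) : 0 ≤ cdiff b (ptr n) (-x) := by
  rcases le_or_gt (∑ j, b j) x with hS | hS
  · rw [cdiff_zero_of_nonpos b (fun j => (hb j).le)
      (fun y hy => ptr_of_nonpos (by omega) hy) (-x) (by linarith)]
  · obtain ⟨θ, hθ, hsad, hΩ⟩ := exists_theta b hb hx hS
    obtain ⟨hi, he⟩ := cdiff_inv hn hθ b (-x)
    have hl : ∀ j, 0 < θ * b j := fun j => mul_pos hθ (hb j)
    have hheart := heart (l := fun j => θ * b j) hl hΩ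
    set C : ℝ := (∏ j, (2 * Real.sinh (θ * b j))) * Real.exp (-(θ * x)) / θ ^ (n + 1) with hC
    have hC0 : 0 < C := by
      apply div_pos (mul_pos _ (Real.exp_pos _)) (by positivity)
      exact Finset.prod_pos (fun j _ => mul_pos (by norm_num) (sinh_pos (hl j)))
    have h1 : (∫ ξ : ℝ, Ker b n θ (-x) (θ * ξ)).re = C * ∫ ζ : ℝ, (AA (fun j => θ * b j) ζ).re := by
      have e : (fun ξ : ℝ => Ker b n θ (-x) (θ * ξ)) = fun ξ => (C : ℂ) * AA (fun j => θ * b j) ξ := by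
        ext ξ; exact Ker_eq b hb hθ hsad ξ
      rw [e, integral_const_mul, Complex.re_ofReal_mul]
      congr 1
      have := integral_re (AA_integrable hl hΩ)
      simpa using this.symm
    have h2 : ∫ ξ : ℝ, Ker b n θ (-x) (θ * ξ) = |θ⁻¹| • ∫ ξ : ℝ, Ker b n θ (-x) ξ :=
      Measure.integral_comp_mul_left _ _
    rw [← he] at h2
    have h3 : 0 < (∫ ξ : ℝ, Ker b n θ (-x) (θ * ξ)).re := by rw [h1]; positivity
    rw [h2, abs_of_pos (by positivity), Complex.real_smul] at h3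
    have e5 : ((θ⁻¹ : ℝ) : ℂ) * (2 * Real.pi * (cdiff b (ptr n) (-x) : ℂ)) =
        ((θ⁻¹ * (2 * Real.pi) * cdiff b (ptr n) (-x) : ℝ) : ℂ) := by push_cast; ring
    rw [e5, Complex.ofReal_re] at h3
    have hpi := Real.pi_pos
    have h4 : 0 < θ⁻¹ * (2 * Real.pi) := by positivity
    exact ((pos_iff_pos_of_mul_pos h3).1 h4).le

end Pool.Agent.H64.Slab
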