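import Pool.Agent.H60.Slab.Volume
import Pool.Agent.H64.Slab.Cdiff

set_option autoImplicit false

open MeasureTheory Set Filter Topology

namespace Pool.Agent.H64.Slab

open Pool.Agent.H60.Slab

theorem ptr_hasDerivAt {k : ℕ} (hk : 1 ≤ k) (y : ℝ) : HasDerivAt (ptr (k + 1)) (ptr k y) y := by
  have hfac : ((k + 1).factorial : ℝ) = (k + 1) * (k.factorial : ℝ) := by
    rw [Nat.factorial_succ]; push_cast; ring
  have hk1 : ((k : ℝ) + 1) ≠ 0 := by positivity
  have hk2 : (k.factorial : ℝ) ≠ 0 := by exact_mod_cast Nat.factorial_ne_zero k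
  have hpow : HasDerivAt (fun y : ℝ => y ^ (k + 1) / ((k + 1).factorial : ℝ))
      (y ^ k / (k.factorial : ℝ)) y := by
    refine ((hasDerivAt_pow (k + 1) y).div_const _).congr_deriv ?_
    rw [hfac]
    simp only [Nat.add_sub_cancel]
    push_cast
    field_simp
  rcases lt_trichotomy y 0 with h | h | h
  · have e1 : ptr k y = 0 := ptr_of_nonpos (by omega) h.le
    rw [e1]
    refine (hasDerivAt_const y (0 : ℝ)).congr_of_eventuallyEq ?_
    filter_upwards [Iio_mem_nhds h] with z hz
    exact ptr_of_nonpos (by omega) (le_of_lt hz)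
  · subst h
    rw [ptr_of_nonpos (by omega) le_rfl]
    have h0 : ptr (k + 1) 0 = 0 := ptr_of_nonpos (by omega) le_rfl
    have hO : (fun z : ℝ => ptr (k + 1) z) =O[𝓝 0] fun z : ℝ => z ^ 2 := by
      refine Asymptotics.IsBigO.of_bound 1 ?_
      filter_upwards [Ioo_mem_nhds (show (-1 : ℝ) < 0 by norm_num) (show (0 : ℝ) < 1 by norm_num)]
        with z hz
      rw [Real.norm_of_nonneg (ptr_nonneg _ _), Real.norm_of_nonneg (sq_nonneg z), one_mul]
      rcases le_total z 0 with hz0 | hz0
      · rw [ptr_of_nonpos (by omega) hz0]; positivity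
      · rw [ptr_of_nonneg hz0]
        have h1 : z ^ (k + 1) ≤ z ^ 2 := pow_le_pow_of_le_one hz0 hz.2.le (by omega)
        have h2 : (1 : ℝ) ≤ ((k + 1).factorial : ℝ) := by exact_mod_cast Nat.one_le_iff_ne_zero.2 (Nat.factorial_ne_zero _)
        exact le_trans (div_le_self (by positivity) h2) h1
    rw [hasDerivAt_iff_isLittleO_nhds_zero]
    simp only [zero_add, h0, sub_zero, smul_zero]
    exact hO.trans_isLittleO (by simpa using (Asymptotics.isLittleO_pow_id (one_lt_two)))
  · rw [ptr_of_nonneg h.le]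
    refine hpow.congr_of_eventuallyEq ?_
    filter_upwards [Ioi_mem_nhds h] with z hz
    exact ptr_of_nonneg (le_of_lt hz)

theorem cube_neg : ∀ (n : ℕ) (b : Fin n → ℝ) (ψ : ℝ → ℝ), Continuous ψ →
    ∀ y, ∫ x, ψ (y + dot x (fun j => -b j)) ∂(cubeM n) = ∫ x, ψ (y + dot x b) ∂(cubeM n) := by
  intro n
  induction n with
  | zero =>
    intro b ψ _ y
    simp [dot_zero_dim]
  | succ n ih =>
    intro b ψ hψ y
    rw [integral_dot_succ 0 hψ, integral_dot_succ 0 hψ]
    simp only [avg_even_b]
    exact ih (fun j => b ((0 : Fin (n + 1)).succAbove j)) _ (avg_continuous hψ (b 0)) y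

theorem dot_neg' {n : ℕ} (x b : Fin n → ℝ) : dot x (fun j => -b j) = - dot x b := by
  simp [dot, Finset.sum_neg_distrib]

/-- expectation of truncated powers. -/
noncomputable def WW {m : ℕ} (b : Fin m → ℝ) (k : ℕ) (y : ℝ) : ℝ :=
  ∫ x, ptr k (y + dot x b) ∂(cubeM m)

theorem WW_neg {m : ℕ} (b : Fin m → ℝ) (k : ℕ) (y : ℝ) :
    ∫ x, ptr k (y - dot x b) ∂(cubeM m) = WW b k y := by
  unfold WW
  rw [← cube_neg m b (ptr k) (ptr_continuous k) y]
  simp only [dot_neg', sub_eq_add_neg]

theorem ptr_integral {k : ℕ} (hk : 1 ≤ k) (p q : ℝ) :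
    ∫ s in p..q, ptr k s = ptr (k + 1) q - ptr (k + 1) p :=
  intervalIntegral.integral_eq_sub_of_hasDerivAt (fun x _ => ptr_hasDerivAt hk x)
    ((ptr_continuous k).intervalIntegrable _ _)

theorem WW_eq : ∀ {m : ℕ} (b : Fin m → ℝ) (_ : ∀ j, 0 < b j) {k : ℕ} (_ : 1 ≤ k) (y : ℝ),
    WW b k y = (∏ j, b j)⁻¹ * cdiff b (ptr (k + m)) y := by
  intro m
  induction m with
  | zero =>
    intro b _ k _ y
    unfold WW
    rw [integral_cube_zero _ (ptr k y) (by intro x; rw [dot_zero_dim, add_zero]), cdiff_zero]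
    simp
  | succ m ih =>
    intro b hb k hk y
    unfold WW
    rw [integral_dot_succ 0 (ptr_continuous k)]
    simp only [avg_eq_interval _ (hb 0).ne', ptr_integral hk, Fin.zero_succAbove]
    rw [integral_const_mul]
    have hc := ptr_continuous (k + 1)
    have hi : ∀ e : ℝ, Integrable (fun x' : Fin m → ℝ => ptr (k + 1) (y + dot x' (fun j => b j.succ) + e))
        (cubeM m) := fun e => integrable_cube_of_continuous
          (hc.comp ((continuous_const.add (continuous_dot _)).add continuous_const))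
    have e1 : ∀ x' : Fin m → ℝ, ptr (k + 1) (y + dot x' (fun j => b j.succ) - b 0) =
        ptr (k + 1) (y + dot x' (fun j => b j.succ) + (-b 0)) := by
      intro x'; rw [sub_eq_add_neg]
    simp only [e1]
    rw [integral_sub (hi _) (hi _)]
    have e2 : ∀ e : ℝ, ∫ x' : Fin m → ℝ, ptr (k + 1) (y + dot x' (fun j => b j.succ) + e) ∂(cubeM m) =
        WW (fun j => b j.succ) (k + 1) (y + e) := by
      intro e
      unfold WW
      congr 1
      ext x'
      congr 1
      ring
    rw [e2, e2, ih (fun j => b j.succ) (fun j => hb _) (by omega),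
      ih (fun j => b j.succ) (fun j => hb _) (by omega), cdiff_succ, Fin.prod_univ_succ, mul_inv,
      show k + 1 + m = k + (m + 1) by ring, sub_eq_add_neg y]
    ring

/-- an antiderivative of `clamp t`. -/
noncomputable def Gam (t x : ℝ) : ℝ := x ^ 2 / 2 - ptr 2 (x - t) - ptr 2 (-x - t)

theorem Gam_hasDerivAt {t : ℝ} (ht : 0 ≤ t) (x : ℝ) : HasDerivAt (Gam t) (clamp t x) x := by
  unfold Gam
  have p1 : ∀ y : ℝ, HasDerivAt (ptr 2) (ptr 1 y) y := fun y => ptr_hasDerivAt (k := 1) le_rfl y
  have h1 : HasDerivAt (fun x : ℝ => ptr 2 (x - t)) (ptr 1 (x - t)) x :=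
    (p1 (x - t)).comp_sub_const x t
  have h2 : HasDerivAt (fun x : ℝ => ptr 2 (-x - t)) (ptr 1 (-x - t) * (-1)) x := by
    have h3 : HasDerivAt (fun x : ℝ => -x - t) (-1) x := by
      simpa using (hasDerivAt_neg x).sub_const t
    exact (p1 (-x - t)).comp x h3
  have h4 := ((((hasDerivAt_pow 2 x).div_const 2).sub h1).sub h2)
  refine h4.congr_deriv ?_
  unfold clamp ptr
  simp only [pow_one, Nat.factorial_one, Nat.cast_one, div_one]
  norm_num
  rcases le_total x t with h5 | h5 <;> rcases le_total (-t) x with h6 | h6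
  · rw [max_eq_right (by linarith : x - t ≤ 0), max_eq_right (by linarith : -x - t ≤ 0),
      min_eq_left h5, max_eq_right h6]; ring
  · rw [max_eq_right (by linarith : x - t ≤ 0), max_eq_left (by linarith : 0 ≤ -x - t),
      min_eq_left h5, max_eq_left h6]; ring
  · rw [max_eq_left (by linarith : 0 ≤ x - t), max_eq_right (by linarith : -x - t ≤ 0),
      min_eq_right h5, max_eq_right (by linarith)]; ring
  · rw [max_eq_left (by linarith : 0 ≤ x - t), max_eq_left (by linarith : 0 ≤ -x - t),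
      min_eq_right h5]
    have : x = t := by linarith
    have ht0 : t = 0 := by linarith
    rw [this, ht0]; simp

theorem Gam_integral {t : ℝ} (ht : 0 ≤ t) (p q : ℝ) :
    ∫ s in p..q, clamp t s = Gam t q - Gam t p :=
  intervalIntegral.integral_eq_sub_of_hasDerivAt (fun x _ => Gam_hasDerivAt ht x)
    ((clamp_continuous t).intervalIntegrable _ _)

/-- the even function governing pairs. -/
noncomputable def RR {m : ℕ} (b : Fin m → ℝ) (t τ : ℝ) : ℝ := WW b 2 (τ - t) + WW b 2 (-τ - t)

theorem cube_const {m : ℕ} (c : ℝ) : ∫ _ : Fin m → ℝ, c ∂(cubeM m) = 2 ^ m * c := by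
  rw [integral_const]
  have : (cubeM m).real univ = 2 ^ m := by
    simp only [cubeM, Measure.real, Measure.pi_univ, Measure.restrict_apply_univ,
      Real.volume_Icc, Finset.prod_const, Finset.card_univ, Fintype.card_fin,
      ENNReal.toReal_pow]
    norm_num
  rw [this, smul_eq_mul]

theorem lin4 {m : ℕ} (c : ℝ) (f1 f2 f3 f4 : (Fin m → ℝ) → ℝ) (g1 : Integrable f1 (cubeM m))
    (g2 : Integrable f2 (cubeM m)) (g3 : Integrable f3 (cubeM m)) (g4 : Integrable f4 (cubeM m)) :
    ∫ x, (c - (f1 x - f2 x - f3 x + f4 x)) ∂(cubeM m) =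
      2 ^ m * c - ((∫ x, f1 x ∂(cubeM m)) - (∫ x, f2 x ∂(cubeM m)) - (∫ x, f3 x ∂(cubeM m)) +
        ∫ x, f4 x ∂(cubeM m)) := by
  have i12 : Integrable (fun x => f1 x - f2 x) (cubeM m) := g1.sub g2
  have i123 : Integrable (fun x => f1 x - f2 x - f3 x) (cubeM m) := i12.sub g3
  have i4 : Integrable (fun x => f1 x - f2 x - f3 x + f4 x) (cubeM m) := i123.add g4
  rw [integral_sub (integrable_const c) i4, cube_const, integral_add i123 g4,
    integral_sub i12 g3, integral_sub g1 g2]

/-- formula for the slab volume in terms of two coordinates. -/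
theorem FV_pair {m : ℕ} (a : Fin (m + 2) → ℝ) (i : Fin (m + 2)) (j : Fin (m + 1))
    (hα : 0 < a i) (hβ : 0 < a (i.succAbove j)) {t : ℝ} (ht : 0 ≤ t) :
    FV a t 0 = 2 ^ m * 4 - 2 / (a i * a (i.succAbove j)) *
      (RR (fun k => a (i.succAbove (j.succAbove k))) t (a i + a (i.succAbove j)) -
       RR (fun k => a (i.succAbove (j.succAbove k))) t (a i - a (i.succAbove j))) := by
  set α := a i with hαd
  set β := a (i.succAbove j) with hβd
  set b : Fin m → ℝ := fun k => a (i.succAbove (j.succAbove k)) with hb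
  have hcl := clamp_continuous t
  rw [FV_split a i hα ht 0]
  have hg : Continuous (fun s : ℝ => clamp t (s + α) - clamp t (s - α)) := by fun_prop
  have e0 := integral_dot_succ j hg (fun k => a (i.succAbove k)) 0
  have e1 : (fun x' : Fin (m + 1) → ℝ => clamp t (0 + dot x' (fun k => a (i.succAbove k)) + a i) -
      clamp t (0 + dot x' (fun k => a (i.succAbove k)) - a i)) =
      fun x' => (fun s : ℝ => clamp t (s + α) - clamp t (s - α))
        (0 + dot x' (fun k => a (i.succAbove k))) := rfl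
  rw [e1, e0]
  have e2 : ∀ z : ℝ, ∫ u in (-1 : ℝ)..1, (fun s : ℝ => clamp t (s + α) - clamp t (s - α)) (z + u * β) =
      β⁻¹ * ((Gam t (z + (α + β)) - Gam t (z + (α - β))) -
        (Gam t (z + (β - α)) - Gam t (z - (α + β)))) := by
    intro z
    have h0 := avg_eq_interval (fun s : ℝ => clamp t (s + α) - clamp t (s - α)) hβ.ne' z
    rw [h0, intervalIntegral.integral_sub]
    · have h1 : ∫ s in (z - β)..(z + β), clamp t (s + α) = ∫ s in (z - β + α)..(z + β + α), clamp t s :=
        intervalIntegral.integral_comp_add_right _ _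
      have h2 : ∫ s in (z - β)..(z + β), clamp t (s - α) = ∫ s in (z - β - α)..(z + β - α), clamp t s :=
        intervalIntegral.integral_comp_sub_right _ _
      rw [h1, h2, Gam_integral ht, Gam_integral ht]
      congr 2
      · congr 1 <;> congr 1 <;> ring
      · congr 1 <;> congr 1 <;> ring
    all_goals exact (by fun_prop : Continuous _).intervalIntegrable _ _
  have e3 : ∀ x' : Fin m → ℝ, (∫ u in (-1 : ℝ)..1, (fun s : ℝ => clamp t (s + α) - clamp t (s - α))
      ((0 + dot x' (fun k => (fun k => a (i.succAbove k)) (j.succAbove k))) + u *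
        (fun k => a (i.succAbove k)) j)) =
      β⁻¹ * (4 * (α * β) -
        ((ptr 2 ((α + β - t) + dot x' b) + ptr 2 ((-(α + β) - t) - dot x' b)) -
        (ptr 2 ((α - β - t) + dot x' b) + ptr 2 ((-(α - β) - t) - dot x' b)) -
        (ptr 2 ((-(α - β) - t) + dot x' b) + ptr 2 ((α - β - t) - dot x' b)) +
        (ptr 2 ((-(α + β) - t) + dot x' b) + ptr 2 ((α + β - t) - dot x' b)))) := by
    intro x'
    have := e2 (0 + dot x' (fun k => (fun k => a (i.succAbove k)) (j.succAbove k)))
    rw [this]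
    congr 1
    have hb' : dot x' (fun k => (fun k => a (i.succAbove k)) (j.succAbove k)) = dot x' b := rfl
    rw [hb']
    unfold Gam
    have a1 : 0 + dot x' b + (α + β) - t = (α + β - t) + dot x' b := by ring
    have a2 : -(0 + dot x' b + (α + β)) - t = (-(α + β) - t) - dot x' b := by ring
    have a3 : 0 + dot x' b + (α - β) - t = (α - β - t) + dot x' b := by ring
    have a4 : -(0 + dot x' b + (α - β)) - t = (-(α - β) - t) - dot x' b := by ring
    have a5 : 0 + dot x' b + (β - α) - t = (-(α - β) - t) + dot x' b := by ring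
    have a6 : -(0 + dot x' b + (β - α)) - t = (α - β - t) - dot x' b := by ring
    have a7 : 0 + dot x' b - (α + β) - t = (-(α + β) - t) + dot x' b := by ring
    have a8 : -(0 + dot x' b - (α + β)) - t = (α + β - t) - dot x' b := by ring
    rw [a1, a2, a3, a4, a5, a6, a7, a8]
    ring
  rw [integral_congr_ae (Eventually.of_forall e3)]
  have hp := ptr_continuous 2
  have i1 : ∀ e : ℝ, Integrable (fun x' : Fin m → ℝ => ptr 2 (e + dot x' b)) (cubeM m) :=
    fun e => integrable_cube_of_continuous (hp.comp (continuous_const.add (continuous_dot _)))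
  have i2 : ∀ e : ℝ, Integrable (fun x' : Fin m → ℝ => ptr 2 (e - dot x' b)) (cubeM m) :=
    fun e => integrable_cube_of_continuous (hp.comp (continuous_const.sub (continuous_dot _)))
  have w1 : ∀ e : ℝ, ∫ x', ptr 2 (e + dot x' b) ∂(cubeM m) = WW b 2 e := fun e => rfl
  have w2 : ∀ e : ℝ, ∫ x', ptr 2 (e - dot x' b) ∂(cubeM m) = WW b 2 e := fun e => WW_neg b 2 e
  have i3 : ∀ e f : ℝ, Integrable (fun x' : Fin m → ℝ => ptr 2 (e + dot x' b) + ptr 2 (f - dot x' b))
      (cubeM m) := fun e f => (i1 e).add (i2 f)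
  have w3 : ∀ e f : ℝ, ∫ x', (ptr 2 (e + dot x' b) + ptr 2 (f - dot x' b)) ∂(cubeM m) =
      WW b 2 e + WW b 2 f := by
    intro e f
    rw [integral_add (i1 e) (i2 f), w1, w2]
  have h5 := lin4 (4 * (α * β)) _ _ _ _ (i3 (α + β - t) (-(α + β) - t)) (i3 (α - β - t) (-(α - β) - t))
    (i3 (-(α - β) - t) (α - β - t)) (i3 (-(α + β) - t) (α + β - t))
  rw [integral_const_mul, h5]
  simp only [w3]
  rw [← hαd]
  unfold RR
  field_simp
  ring

end Pool.Agent.H64.Slab
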