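import Pool.Agent.H64.Slab.Pair

set_option autoImplicit false

open MeasureTheory Set Filter Topology

namespace Pool.Agent.H64.Slab

open Pool.Agent.H60.Slab

theorem FV_min_pos {n : ℕ} (hn : 1 ≤ n) {t : ℝ} (ht : 3 ≤ t) : ∀ (K : ℕ) (a : Fin n → ℝ),
    (∀ k, 0 < a k) → ∑ k, a k ^ 2 = 1 →
    (Finset.univ.filter (fun k => a k ^ 2 ≠ 1 / (n : ℝ))).card ≤ K →
    FV (fun _ : Fin n => 1 / Real.sqrt n) t 0 ≤ FV a t 0 := by
  have hn0 : (0 : ℝ) < n := by exact_mod_cast hn
  have hsn : 0 < Real.sqrt n := Real.sqrt_pos.2 hn0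
  have hsq1 : (1 / Real.sqrt n) ^ 2 = 1 / (n : ℝ) := by
    rw [div_pow, Real.sq_sqrt hn0.le, one_pow]
  have hbase : ∀ a : Fin n → ℝ, (∀ k, 0 < a k) → (∀ k, a k ^ 2 = 1 / (n : ℝ)) →
      FV (fun _ : Fin n => 1 / Real.sqrt n) t 0 ≤ FV a t 0 := by
    intro a ha h
    have : a = fun _ : Fin n => 1 / Real.sqrt n := by
      ext k
      have h1 := h k
      rw [← hsq1] at h1
      exact (sq_eq_sq₀ (ha k).le (by positivity)).1 h1
    rw [this]
  intro K
  induction K with
  | zero =>
    intro a ha _ hc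
    apply hbase a ha
    intro k
    by_contra hk
    have : k ∈ Finset.univ.filter (fun k => a k ^ 2 ≠ 1 / (n : ℝ)) :=
      Finset.mem_filter.2 ⟨Finset.mem_univ _, hk⟩
    have := Finset.card_pos.2 ⟨k, this⟩
    omega
  | succ K ih =>
    intro a ha hsum hc
    by_cases hall : ∀ k, a k ^ 2 = 1 / (n : ℝ)
    · exact hbase a ha hall
    push Not at hall
    obtain ⟨k0, hk0⟩ := hall
    have hsum0 : ∑ k, (a k ^ 2 - 1 / (n : ℝ)) = 0 := by
      rw [Finset.sum_sub_distrib, hsum]
      simp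
      field_simp
      ring
    obtain ⟨i, _, hi⟩ := Finset.exists_pos_of_sum_zero_of_exists_nonzero
      (s := Finset.univ) (fun k => a k ^ 2 - 1 / (n : ℝ)) hsum0
      ⟨k0, Finset.mem_univ _, sub_ne_zero.2 hk0⟩
    obtain ⟨l, _, hl⟩ := Finset.exists_pos_of_sum_zero_of_exists_nonzero
      (s := Finset.univ) (fun k => -(a k ^ 2 - 1 / (n : ℝ))) (by rw [Finset.sum_neg_distrib, hsum0, neg_zero])
      ⟨k0, Finset.mem_univ _, neg_ne_zero.2 (sub_ne_zero.2 hk0)⟩
    have hil : i ≠ l := by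
      rintro rfl
      linarith
    have hn2 : 2 ≤ n := by
      by_contra h
      have hn1 : n = 1 := by omega
      subst hn1
      exact hil (Subsingleton.elim _ _)
    obtain ⟨m, rfl⟩ : ∃ m, n = m + 2 := ⟨n - 2, by omega⟩
    obtain ⟨j, rfl⟩ := Fin.exists_succAbove_eq hil.symm
    set N : ℝ := ((m + 2 : ℕ) : ℝ) with hN
    set p : ℝ := Real.sqrt (a i ^ 2 + a (i.succAbove j) ^ 2 - 1 / N) with hp
    have hα := ha i
    have hβ := ha (i.succAbove j)
    have hi' : 1 / N < a i ^ 2 := by linarith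
    have hl' : a (i.succAbove j) ^ 2 < 1 / N := by linarith
    have hppos : 0 < a i ^ 2 + a (i.succAbove j) ^ 2 - 1 / N := by
      have : 0 < a (i.succAbove j) ^ 2 := by positivity
      linarith
    have hp0 : 0 < p := Real.sqrt_pos.2 hppos
    have hp2 : p ^ 2 = a i ^ 2 + a (i.succAbove j) ^ 2 - 1 / N := Real.sq_sqrt hppos.le
    set a' : Fin (m + 2) → ℝ := Function.update (Function.update a i (1 / Real.sqrt N)) (i.succAbove j) p
      with ha'
    have e1 : a' i = 1 / Real.sqrt N := by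
      rw [ha', Function.update_of_ne hil, Function.update_self]
    have e2 : a' (i.succAbove j) = p := by
      rw [ha', Function.update_self]
    have e3 : ∀ k, a' (i.succAbove (j.succAbove k)) = a (i.succAbove (j.succAbove k)) := by
      intro k
      rw [ha', Function.update_of_ne, Function.update_of_ne (Fin.succAbove_ne _ _)]
      intro h
      exact Fin.succAbove_ne j k (Fin.succAbove_right_injective h)
    have hpos' : ∀ k, 0 < a' k := by
      intro k
      rw [ha']
      by_cases h1 : k = i.succAbove j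
      · rw [h1, Function.update_self]; exact hp0
      · rw [Function.update_of_ne h1]
        by_cases h2 : k = i
        · rw [h2, Function.update_self]; positivity
        · rw [Function.update_of_ne h2]; exact ha k
    have hsq : a' i ^ 2 + a' (i.succAbove j) ^ 2 = a i ^ 2 + a (i.succAbove j) ^ 2 := by
      rw [e1, e2, hsq1, hp2]; ring
    have hprod : a i * a (i.succAbove j) ≤ a' i * a' (i.succAbove j) := by
      rw [e1, e2]
      apply abs_le_of_sq_le_sq' _ (by positivity) |>.2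
      rw [mul_pow, mul_pow, hsq1, hp2]
      nlinarith [mul_pos (sub_pos.2 hi') (sub_pos.2 hl')]
    have hsum' : ∑ k, a' k ^ 2 = 1 := by
      rw [← hsum, Fin.sum_univ_succAbove _ i, Fin.sum_univ_succAbove _ j,
        Fin.sum_univ_succAbove (fun k => a k ^ 2) i, Fin.sum_univ_succAbove _ j]
      simp only [e3]
      linarith
    have hcard : (Finset.univ.filter (fun k => a' k ^ 2 ≠ 1 / N)).card ≤ K := by
      have hsub : Finset.univ.filter (fun k => a' k ^ 2 ≠ 1 / N) ⊆
          (Finset.univ.filter (fun k => a k ^ 2 ≠ 1 / N)).erase i := by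
        intro k hk
        rw [Finset.mem_filter] at hk
        rw [Finset.mem_erase, Finset.mem_filter]
        have hki : k ≠ i := by
          rintro rfl
          exact hk.2 (by rw [e1, hsq1])
        refine ⟨hki, Finset.mem_univ _, ?_⟩
        by_cases h1 : k = i.succAbove j
        · rw [h1]; exact hl'.ne
        · have h2 : a' k = a k := by
            rw [ha', Function.update_of_ne h1, Function.update_of_ne hki]
          rw [← h2]; exact hk.2
      have h1 := Finset.card_le_card hsub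
      have h2 : i ∈ Finset.univ.filter (fun k => a k ^ 2 ≠ 1 / N) := by
        rw [Finset.mem_filter]
        exact ⟨Finset.mem_univ _, hi'.ne'⟩
      rw [Finset.card_erase_of_mem h2] at h1
      omega
    exact le_trans (ih a' hpos' hsum' hcard) (FV_pair_le a a' i j ha hpos' e3 hsq hprod hsum ht)

theorem mp_mul {c : ℝ} (hc : c = 1 ∨ c = -1) :
    MeasurePreserving (fun x : ℝ => c * x) (volume.restrict (Icc (-1 : ℝ) 1))
      (volume.restrict (Icc (-1 : ℝ) 1)) := by
  rcases hc with rfl | rfl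
  · simp only [one_mul]
    exact MeasurePreserving.id _
  · have h := (Measure.measurePreserving_neg (volume : Measure ℝ)).restrict_preimage
      (measurableSet_Icc : MeasurableSet (Icc (-1 : ℝ) 1))
    have e : (Neg.neg : ℝ → ℝ) ⁻¹' Icc (-1) 1 = Icc (-1) 1 := by
      ext x; simp only [mem_preimage, mem_Icc]; constructor <;> rintro ⟨h1, h2⟩ <;>
        constructor <;> linarith
    rw [e] at h
    simp only [neg_mul, one_mul]
    exact h

theorem FV_abs {n : ℕ} (a : Fin n → ℝ) (t : ℝ) : FV (fun i => |a i|) t 0 = FV a t 0 := by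
  set c : Fin n → ℝ := fun i => if 0 ≤ a i then 1 else -1 with hc
  have hc1 : ∀ i, c i = 1 ∨ c i = -1 := by
    intro i
    rw [hc]
    by_cases h : 0 ≤ a i <;> simp [h]
  have hmp : MeasurePreserving (fun (x : Fin n → ℝ) i => c i * x i) (cubeM n) (cubeM n) := by
    unfold cubeM
    exact measurePreserving_pi _ _ (fun i => mp_mul (hc1 i))
  unfold FV Measure.real
  congr 1
  rw [← hmp.measure_preimage (measurableSet_slab (fun i => |a i|) t 0).nullMeasurableSet]
  congr 1
  ext x
  simp only [mem_preimage, mem_ofPred_eq]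
  have : dot (fun i => c i * x i) (fun i => |a i|) = dot x a := by
    unfold dot
    apply Finset.sum_congr rfl
    intro i _
    rw [hc]
    by_cases h : 0 ≤ a i
    · simp [h, abs_of_nonneg h]
    · simp [h, abs_of_neg (not_le.1 h)]
  rw [this]

theorem exists_pos_near {n : ℕ} (hn : 1 ≤ n) (a : Fin n → ℝ) (ha : ∀ i, 0 ≤ a i)
    (h1 : ∑ i, a i ^ 2 = 1) {ε : ℝ} (hε : 0 < ε) :
    ∃ b : Fin n → ℝ, (∀ i, 0 < b i) ∧ ∑ i, b i ^ 2 = 1 ∧ ∑ i, |a i - b i| ≤ ε := by
  set S : ℝ → ℝ := fun δ => ∑ i, (a i + δ) ^ 2 with hS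
  set b : ℝ → Fin n → ℝ := fun δ i => (a i + δ) / Real.sqrt (S δ) with hb
  have hS0 : S 0 = 1 := by simp [hS, h1]
  have hScont : Continuous S := by
    rw [hS]; fun_prop
  have hbcont : ContinuousAt (fun δ => ∑ i, |a i - b δ i|) 0 := by
    have h2 : ContinuousAt (fun δ => Real.sqrt (S δ)) 0 := (Real.continuous_sqrt.comp hScont).continuousAt
    have h3 : Real.sqrt (S 0) ≠ 0 := by rw [hS0]; simp
    apply tendsto_finsetSum
    intro i _
    apply Tendsto.abs
    apply Tendsto.sub tendsto_const_nhds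
    exact ContinuousAt.div (by fun_prop) h2 h3
  have hz : ∑ i, |a i - b 0 i| = 0 := by
    simp [hb, hS0]
  have hev : ∀ᶠ δ in 𝓝 (0 : ℝ), ∑ i, |a i - b δ i| < ε := by
    have := hbcont.tendsto
    rw [hz] at this
    exact this.eventually (gt_mem_nhds hε)
  obtain ⟨δ, hδ, hδ0⟩ := ((hev.filter_mono nhdsWithin_le_nhds).and
    (self_mem_nhdsWithin : ∀ᶠ δ in 𝓝[>] (0 : ℝ), δ ∈ Ioi 0)).exists
  have hδ0' : 0 < δ := hδ0
  have hSpos : 0 < S δ := by
    rw [hS]
    apply Finset.sum_pos
    · intro i _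
      have := ha i
      positivity
    · exact ⟨⟨0, by omega⟩, Finset.mem_univ _⟩
  refine ⟨b δ, ?_, ?_, hδ.le⟩
  · intro i
    have := ha i
    have := Real.sqrt_pos.2 hSpos
    rw [hb]
    positivity
  · simp only [hb, div_pow, Real.sq_sqrt hSpos.le]
    rw [← Finset.sum_div]
    exact div_self hSpos.ne'

theorem FV_le_near {n : ℕ} (a b : Fin n → ℝ) {t ε : ℝ} (h : ∑ i, |a i - b i| ≤ ε) :
    FV b t 0 ≤ FV a (t + ε) 0 := by
  unfold FV Measure.real
  apply ENNReal.toReal_mono (measure_ne_top _ _)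
  apply measure_mono_ae
  have hae : ∀ᵐ x ∂(cubeM n), x ∈ Icc (fun _ => (-1 : ℝ)) (fun _ : Fin n => (1 : ℝ)) := by
    rw [cubeM_eq]
    exact ae_restrict_mem measurableSet_Icc
  filter_upwards [hae] with x hx hxb
  have hxb' : |0 + dot x b| ≤ t := hxb
  show |0 + dot x a| ≤ t + ε
  have h1 : dot x a = dot x b + ∑ i, x i * (a i - b i) := by
    unfold dot
    rw [← Finset.sum_add_distrib]
    apply Finset.sum_congr rfl
    intro i _
    ring
  have h2 : |∑ i, x i * (a i - b i)| ≤ ε := by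
    refine le_trans (Finset.abs_sum_le_sum_abs _ _) (le_trans (Finset.sum_le_sum fun i _ => ?_) h)
    rw [abs_mul]
    have h3 : |x i| ≤ 1 := abs_le.2 ⟨hx.1 i, hx.2 i⟩
    exact mul_le_of_le_one_left (abs_nonneg _) h3
  rw [zero_add] at hxb' ⊢
  rw [h1]
  exact le_trans (abs_add_le _ _) (add_le_add hxb' h2)

theorem FV_right_cont {n : ℕ} (a : Fin n → ℝ) (t c : ℝ) (h : ∀ ε : ℝ, 0 < ε → c ≤ FV a (t + ε) 0) :
    c ≤ FV a t 0 := by
  set s : ℕ → Set (Fin n → ℝ) := fun k => {x | |0 + dot x a| ≤ t + 1 / ((k : ℝ) + 1)} with hs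
  have hanti : Antitone s := by
    intro k l hkl x hx
    have hx' : |0 + dot x a| ≤ t + 1 / ((l : ℝ) + 1) := hx
    show |0 + dot x a| ≤ t + 1 / ((k : ℝ) + 1)
    have : 1 / ((l : ℝ) + 1) ≤ 1 / ((k : ℝ) + 1) := by
      apply one_div_le_one_div_of_le (by positivity)
      have : (k : ℝ) ≤ l := by exact_mod_cast hkl
      linarith
    linarith
  have hlim := tendsto_measure_iInter_atTop (μ := cubeM n) (s := s)
    (fun k : ℕ => (measurableSet_slab a (t + 1 / ((k : ℝ) + 1)) 0).nullMeasurableSet) hanti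
    ⟨0, measure_ne_top _ _⟩
  have hinter : ⋂ k, s k = {x | |0 + dot x a| ≤ t} := by
    ext x
    simp only [hs, mem_iInter, mem_ofPred_eq]
    constructor
    · intro hx
      have h1 : Tendsto (fun k : ℕ => t + 1 / ((k : ℝ) + 1)) atTop (𝓝 (t + 0)) :=
        tendsto_const_nhds.add tendsto_one_div_add_atTop_nhds_zero_nat
      rw [add_zero] at h1
      exact ge_of_tendsto' h1 hx
    · intro hx k
      have : 0 < 1 / ((k : ℝ) + 1) := by positivity
      linarith
  have hlim2 : Tendsto (fun k : ℕ => FV a (t + 1 / ((k : ℝ) + 1)) 0) atTop (𝓝 (FV a t 0)) := by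
    unfold FV Measure.real
    rw [← hinter]
    exact (ENNReal.tendsto_toReal (measure_ne_top _ _)).comp hlim
  exact ge_of_tendsto' hlim2 (fun k => h _ (by positivity))

theorem FV_min {n : ℕ} (hn : 1 ≤ n) {t : ℝ} (ht : 3 ≤ t) (a : Fin n → ℝ) (hsum : ∑ k, a k ^ 2 = 1) :
    FV (fun _ : Fin n => 1 / Real.sqrt n) t 0 ≤ FV a t 0 := by
  rw [← FV_abs a t]
  apply FV_right_cont
  intro ε hε
  obtain ⟨b, hb, hb1, hb2⟩ := exists_pos_near hn (fun i => |a i|) (fun i => abs_nonneg _)
    (by simpa [sq_abs] using hsum) hε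
  exact le_trans (FV_min_pos hn ht _ b hb hb1 le_rfl) (FV_le_near _ _ hb2)

end Pool.Agent.H64.Slab
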