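import Mathlib

set_option autoImplicit false

open Set Filter Topology

namespace Pool.Agent.H64.Slab

theorem nonneg_of_deriv {F F' : ℝ → ℝ} (h : ∀ x, HasDerivAt F (F' x) x) {c : ℝ}
    (h0 : F 0 = 0) (hp : ∀ x ∈ Icc 0 c, 0 ≤ F' x) : ∀ x ∈ Icc 0 c, 0 ≤ F x := by
  intro x hx
  have hmono : MonotoneOn F (Icc 0 c) := by
    apply monotoneOn_of_deriv_nonneg (convex_Icc 0 c)
    · exact fun x _ => (h x).continuousAt.continuousWithinAt
    · exact fun x _ => (h x).differentiableAt.differentiableWithinAt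
    · intro y hy
      rw [(h y).deriv]
      exact hp y (interior_subset hy)
  have := hmono (⟨le_rfl, le_trans hx.1 hx.2⟩ : (0 : ℝ) ∈ Icc 0 c) hx hx.1
  linarith

theorem slope_mono {R0 R1 R2 R3 R4 R5 R6 : ℝ → ℝ}
    (h0 : ∀ x, HasDerivAt R0 (R1 x) x) (h1 : ∀ x, HasDerivAt R1 (R2 x) x)
    (h2 : ∀ x, HasDerivAt R2 (R3 x) x) (h3 : ∀ x, HasDerivAt R3 (R4 x) x)
    (h4 : ∀ x, HasDerivAt R4 (R5 x) x) (h5 : ∀ x, HasDerivAt R5 (R6 x) x)
    (z1 : R1 0 = 0) (z3 : R3 0 = 0) (z5 : R5 0 = 0) {c : ℝ} (hc : 0 ≤ c)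
    (hp : ∀ x ∈ Icc 0 c, 0 ≤ R6 x) {s u v : ℝ} (hs : 2 * s ≤ c ^ 2) (hu : 0 < u) (huv : u ≤ v)
    (hvs : v ≤ s) :
    (R0 (Real.sqrt (s + u)) - R0 (Real.sqrt (s - u))) / u ≤
      (R0 (Real.sqrt (s + v)) - R0 (Real.sqrt (s - v))) / v := by
  have hv : 0 < v := lt_of_lt_of_le hu huv
  have hs0 : 0 < s := lt_of_lt_of_le hv hvs
  have p5 : ∀ x ∈ Icc 0 c, 0 ≤ R5 x := nonneg_of_deriv h5 z5 hp
  have p4 : ∀ x ∈ Icc 0 c, 0 ≤ x * R4 x - R3 x := by
    apply nonneg_of_deriv (F := fun x => x * R4 x - R3 x) (F' := fun x => x * R5 x)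
    · intro x
      refine (((hasDerivAt_id x).mul (h4 x)).sub (h3 x)).congr_deriv ?_
      simp only [id]; ring
    · simp [z3]
    · intro x hx
      exact mul_nonneg hx.1 (p5 x hx)
  have p3 : ∀ x ∈ Icc 0 c, 0 ≤ x ^ 2 * R3 x - 3 * (x * R2 x) + 3 * R1 x := by
    apply nonneg_of_deriv (F := fun x => x ^ 2 * R3 x - 3 * (x * R2 x) + 3 * R1 x)
      (F' := fun x => x * (x * R4 x - R3 x))
    · intro x
      refine ((((hasDerivAt_pow 2 x).mul (h3 x)).sub (((hasDerivAt_id x).mul (h2 x)).const_mul 3)).add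
        ((h1 x).const_mul 3)).congr_deriv ?_
      simp only [id]; norm_num; ring
    · simp [z1]
    · intro x hx
      exact mul_nonneg hx.1 (p4 x hx)
  -- p2
  have hp2d : ∀ x : ℝ, 0 < x → HasDerivAt (fun x => (x * R2 x - R1 x) / x ^ 3)
      ((x ^ 2 * R3 x - 3 * (x * R2 x) + 3 * R1 x) / x ^ 4) x := by
    intro x hx
    refine ((((hasDerivAt_id x).mul (h2 x)).sub (h1 x)).div (hasDerivAt_pow 3 x)
      (by positivity)).congr_deriv ?_
    simp only [id, Pi.sub_apply, Pi.mul_apply]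
    norm_num
    field_simp
    ring
  have hp2 : MonotoneOn (fun x => (x * R2 x - R1 x) / x ^ 3) (Ioc 0 c) := by
    apply monotoneOn_of_deriv_nonneg (convex_Ioc 0 c)
    · exact fun x hx => (hp2d x hx.1).continuousAt.continuousWithinAt
    · intro x hx
      exact (hp2d x (interior_subset hx).1).differentiableAt.differentiableWithinAt
    · intro x hx
      have hx' := interior_subset hx
      rw [(hp2d x hx'.1).deriv]
      exact div_nonneg (p3 x ⟨hx'.1.le, hx'.2⟩) (by positivity)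
  -- f
  set f : ℝ → ℝ := fun w => R1 (Real.sqrt w) / (2 * Real.sqrt w) with hf
  have hsqrt : ∀ w : ℝ, 0 < w → HasDerivAt Real.sqrt (1 / (2 * Real.sqrt w)) w :=
    fun w hw => Real.hasDerivAt_sqrt hw.ne'
  have hfd : ∀ w : ℝ, 0 < w → HasDerivAt f
      (1 / 4 * ((Real.sqrt w * R2 (Real.sqrt w) - R1 (Real.sqrt w)) / Real.sqrt w ^ 3)) w := by
    intro w hw
    have hw0 : 0 < Real.sqrt w := Real.sqrt_pos.2 hw
    have a1 := (h1 (Real.sqrt w)).comp w (hsqrt w hw)
    have a2 := (hsqrt w hw).const_mul 2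
    refine (a1.div a2 (by positivity)).congr_deriv ?_
    simp only [Function.comp_apply]
    field_simp
    ring
  have hfconv : ConvexOn ℝ (Ioo 0 (2 * s)) f := by
    apply MonotoneOn.convexOn_of_deriv (convex_Ioo _ _)
    · exact fun w hw => (hfd w hw.1).continuousAt.continuousWithinAt
    · rw [interior_Ioo]
      exact fun w hw => (hfd w hw.1).differentiableAt.differentiableWithinAt
    · rw [interior_Ioo]
      intro w hw w' hw' hww
      rw [(hfd w hw.1).deriv, (hfd w' hw'.1).deriv]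
      apply mul_le_mul_of_nonneg_left _ (by norm_num)
      have hwc : Real.sqrt w' ≤ c := Real.sqrt_le_iff.2 ⟨hc, by linarith [hw'.2]⟩
      exact hp2 ⟨Real.sqrt_pos.2 hw.1, le_trans (Real.sqrt_le_sqrt hww) hwc⟩
        ⟨Real.sqrt_pos.2 hw'.1, hwc⟩ (Real.sqrt_le_sqrt hww)
  -- Phi
  set Φ : ℝ → ℝ := fun h => R0 (Real.sqrt (s + h)) - R0 (Real.sqrt (s - h)) with hΦ
  have hΦd : ∀ h ∈ Ioo 0 s, HasDerivAt Φ (f (s + h) + f (s - h)) h := by
    intro h hh
    have b1 : HasDerivAt (fun h => s + h) 1 h := by simpa using (hasDerivAt_id h).const_add s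
    have b2 : HasDerivAt (fun h => s - h) (-1) h := by simpa using (hasDerivAt_id h).const_sub s
    have a1 := (h0 (Real.sqrt (s + h))).comp h ((hsqrt (s + h) (by linarith [hh.1])).comp h b1)
    have a2 := (h0 (Real.sqrt (s - h))).comp h ((hsqrt (s - h) (by linarith [hh.2])).comp h b2)
    refine (a1.sub a2).congr_deriv ?_
    simp only [hf]
    ring
  have hcont0 : Continuous R0 := continuous_iff_continuousAt.2 fun x => (h0 x).continuousAt
  have hΦc : Continuous Φ := by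
    rw [hΦ]
    exact (hcont0.comp (Real.continuous_sqrt.comp (by fun_prop))).sub
      (hcont0.comp (Real.continuous_sqrt.comp (by fun_prop)))
  have hΦconv : ConvexOn ℝ (Icc 0 s) Φ := by
    apply MonotoneOn.convexOn_of_deriv (convex_Icc _ _) hΦc.continuousOn
    · rw [interior_Icc]
      exact fun w hw => (hΦd w hw).differentiableAt.differentiableWithinAt
    · rw [interior_Icc]
      intro w hw w' hw' hww
      rw [(hΦd w hw).deriv, (hΦd w' hw').deriv]
      rcases eq_or_lt_of_le hww with rfl | hlt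
      · exact le_rfl
      have hw'0 : 0 < w' := hw'.1
      -- convex combinations
      set μ : ℝ := (1 + w / w') / 2 with hμ
      have hq0 : 0 ≤ w / w' := div_nonneg hw.1.le hw'.1.le
      have hq1 : w / w' ≤ 1 := (div_le_one hw'0).2 hww
      have hμ0 : 0 ≤ μ := by rw [hμ]; linarith
      have hμ1 : 0 ≤ 1 - μ := by rw [hμ]; linarith
      have hww' : w / w' * w' = w := div_mul_cancel₀ w hw'0.ne'
      have m1 : s + w' ∈ Ioo 0 (2 * s) := ⟨by linarith [hw'.1], by linarith [hw'.2]⟩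
      have m2 : s - w' ∈ Ioo 0 (2 * s) := ⟨by linarith [hw'.2], by linarith [hw'.1]⟩
      have c1 := hfconv.2 m1 m2 hμ0 hμ1 (by ring)
      have c2 := hfconv.2 m1 m2 hμ1 hμ0 (by ring)
      simp only [smul_eq_mul] at c1 c2
      have e1 : μ * (s + w') + (1 - μ) * (s - w') = s + w := by rw [hμ]; linear_combination hww'
      have e2 : (1 - μ) * (s + w') + μ * (s - w') = s - w := by rw [hμ]; linear_combination -hww'
      rw [e1] at c1
      rw [e2] at c2
      linarith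
  have hΦ0 : Φ 0 = 0 := by simp [hΦ]
  have key := hΦconv.2 (⟨hv.le, hvs⟩ : v ∈ Icc 0 s) (⟨le_rfl, hs0.le⟩ : (0 : ℝ) ∈ Icc 0 s)
    (div_nonneg hu.le hv.le) (sub_nonneg.2 ((div_le_one hv).2 huv)) (by ring)
  simp only [smul_eq_mul, mul_zero, add_zero, hΦ0, div_mul_cancel₀ u hv.ne'] at key
  rw [div_le_div_iff₀ hu hv]
  have h9 : Φ u * v ≤ u / v * Φ v * v := mul_le_mul_of_nonneg_right key hv.le
  have h10 : u / v * Φ v * v = Φ v * u := by field_simp
  rw [h10] at h9
  exact h9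

end Pool.Agent.H64.Slab
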