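import Pool.Agent.H60.Slab.Sinc

set_option autoImplicit false

open MeasureTheory Set Filter Topology

namespace Pool.Agent.H64.Slab

open Pool.Agent.H60.Slab (mono_aux exp_lb5)

theorem arctan_lb : ∀ x : ℝ, 0 ≤ x → x - x ^ 3 / 3 + x ^ 5 / 5 - x ^ 7 / 7 ≤ Real.arctan x := by
  apply mono_aux (f := fun x => 1 - x ^ 2 + x ^ 4 - x ^ 6) (g := fun x => 1 / (1 + x ^ 2))
  · intro x
    have h := (((hasDerivAt_id x).sub ((hasDerivAt_pow 3 x).div_const 3)).add
      ((hasDerivAt_pow 5 x).div_const 5)).sub ((hasDerivAt_pow 7 x).div_const 7)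
    exact h.congr_deriv (by norm_num; try ring)
  · exact Real.hasDerivAt_arctan
  · simp
  · intro x _
    rw [le_div_iff₀ (by positivity)]
    nlinarith [sq_nonneg (x ^ 4)]

theorem sqrt3_lb : (1.7320 : ℝ) ≤ Real.sqrt 3 := Real.le_sqrt_of_sq_le (by norm_num)
theorem sqrt3_ub : Real.sqrt 3 ≤ (1.7321 : ℝ) := Real.sqrt_le_iff.2 ⟨by norm_num, by norm_num⟩
theorem sqrt7_lb : (2.6457 : ℝ) ≤ Real.sqrt 7 := Real.le_sqrt_of_sq_le (by norm_num)
theorem sqrt7_ub : Real.sqrt 7 ≤ (2.6458 : ℝ) := Real.sqrt_le_iff.2 ⟨by norm_num, by norm_num⟩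
theorem sq3 : Real.sqrt 3 ^ 2 = 3 := Real.sq_sqrt (by norm_num)
theorem sq7 : Real.sqrt 7 ^ 2 = 7 := Real.sq_sqrt (by norm_num)

/-- near part of the comparison function. -/
noncomputable def h1 (u : ℝ) : ℝ :=
  (1 - u ^ 2 / 2 + u ^ 4 / 8 - u ^ 6 / 48 + u ^ 8 / 384 - u ^ 10 / 3840) -
    (0.189 * u ^ 3 + u ^ 4 / 56) * (1 - 3 * u ^ 2 / 14 + 9 * u ^ 4 / 196)

/-- far part of the comparison function. -/
noncomputable def h2 (u : ℝ) : ℝ := ((1 + u ^ 2 / 7) ^ 2)⁻¹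

/-- an antiderivative of `h1`. -/
noncomputable def H1 (u : ℝ) : ℝ :=
  (u - u ^ 3 / 6 + u ^ 5 / 40 - u ^ 7 / 336 + u ^ 9 / 3456 - u ^ 11 / 42240) -
    (0.189 * (u ^ 4 / 4 - u ^ 6 / 28 + 9 * u ^ 8 / 1568) +
      (u ^ 5 / 5 - 3 * u ^ 7 / 98 + u ^ 9 / 196) / 56)

/-- an antiderivative of `h2`. -/
noncomputable def H2 (u : ℝ) : ℝ :=
  Real.sqrt 7 / 2 * (Real.arctan (u / Real.sqrt 7) + (u / Real.sqrt 7) / (1 + u ^ 2 / 7))

theorem hasDerivAt_H1 (u : ℝ) : HasDerivAt H1 (h1 u) u := by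
  unfold H1 h1
  have p : ∀ n : ℕ, HasDerivAt (fun x : ℝ => x ^ n) ((n : ℝ) * u ^ (n - 1)) u :=
    fun n => hasDerivAt_pow n u
  have a1 := ((((((hasDerivAt_id u).sub ((p 3).div_const 6)).add ((p 5).div_const 40)).sub
    ((p 7).div_const 336)).add ((p 9).div_const 3456)).sub ((p 11).div_const 42240))
  have a2 := ((((p 4).div_const 4).sub ((p 6).div_const 28)).add
    (((p 8).const_mul 9).div_const 1568)).const_mul (0.189 : ℝ)
  have a3 := ((((p 5).div_const 5).sub (((p 7).const_mul 3).div_const 98)).add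
    ((p 9).div_const 196)).div_const 56
  refine (a1.sub (a2.add a3)).congr_deriv ?_
  norm_num
  ring

theorem hasDerivAt_H2 (u : ℝ) : HasDerivAt H2 (h2 u) u := by
  unfold H2 h2
  have h7 : 0 < Real.sqrt 7 := Real.sqrt_pos.2 (by norm_num)
  have hs := sq7
  have d1 : HasDerivAt (fun x : ℝ => x / Real.sqrt 7) (1 / Real.sqrt 7) u :=
    (hasDerivAt_id u).div_const _
  have d2 : HasDerivAt (fun x : ℝ => Real.arctan (x / Real.sqrt 7))
      (1 / (1 + (u / Real.sqrt 7) ^ 2) * (1 / Real.sqrt 7)) u :=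
    (Real.hasDerivAt_arctan _).comp u d1
  have hne : 1 + u ^ 2 / 7 ≠ 0 := by positivity
  have d3 : HasDerivAt (fun x : ℝ => 1 + x ^ 2 / 7) (2 * u / 7) u := by
    have := ((hasDerivAt_pow 2 u).div_const 7).const_add 1
    refine this.congr_deriv ?_
    norm_num
  have d4 := d1.div d3 hne
  refine ((d2.add d4).const_mul (Real.sqrt 7 / 2)).congr_deriv ?_
  have e : (u / Real.sqrt 7) ^ 2 = u ^ 2 / 7 := by rw [div_pow, hs]
  rw [e]
  field_simp
  ring

theorem H2_tendsto : Tendsto H2 atTop (𝓝 (Real.sqrt 7 / 2 * (Real.pi / 2 + 0))) := by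
  unfold H2
  have h7 : 0 < Real.sqrt 7 := Real.sqrt_pos.2 (by norm_num)
  refine Tendsto.const_mul _ (Tendsto.add ?_ ?_)
  · have h1 : Tendsto (fun x : ℝ => x / Real.sqrt 7) atTop atTop :=
      tendsto_id.atTop_div_const h7
    exact (Real.tendsto_arctan_atTop.mono_right nhdsWithin_le_nhds).comp h1
  · have h2 : ∀ᶠ u : ℝ in atTop, (u / Real.sqrt 7) / (1 + u ^ 2 / 7) ≤ 7 / u := by
      filter_upwards [eventually_gt_atTop (0 : ℝ)] with u hu
      rw [div_le_div_iff₀ (by positivity) hu]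
      have h3 : u / Real.sqrt 7 ≤ u := by
        apply div_le_self hu.le
        have := sqrt7_lb
        linarith
      nlinarith
    have h3 : ∀ᶠ u : ℝ in atTop, 0 ≤ (u / Real.sqrt 7) / (1 + u ^ 2 / 7) := by
      filter_upwards [eventually_gt_atTop (0 : ℝ)] with u hu
      positivity
    have h4 : Tendsto (fun u : ℝ => 7 / u) atTop (𝓝 0) := tendsto_const_nhds.div_atTop tendsto_id
    exact tendsto_of_tendsto_of_tendsto_of_le_of_le' tendsto_const_nhds h4 h3 h2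

theorem h2_tail : IntegrableOn h2 (Ioi (Real.sqrt 3)) ∧
    ∫ u in Ioi (Real.sqrt 3), h2 u = Real.sqrt 7 / 2 * (Real.pi / 2 + 0) - H2 (Real.sqrt 3) := by
  have hp : ∀ x ∈ Ioi (Real.sqrt 3), 0 ≤ h2 x := by
    intro x _; unfold h2; positivity
  exact ⟨integrableOn_Ioi_deriv_of_nonneg' (fun x _ => hasDerivAt_H2 x) hp H2_tendsto,
    integral_Ioi_of_hasDerivAt_of_nonneg' (fun x _ => hasDerivAt_H2 x) hp H2_tendsto⟩

theorem numeric : Real.sqrt 7 / 2 * (Real.pi / 2 + 0) - H2 (Real.sqrt 3) < H1 (Real.sqrt 3) := by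
  have a := sqrt3_lb
  have b := sqrt3_ub
  have c := sqrt7_lb
  have d := sqrt7_ub
  have h3 := sq3
  have h7 := sq7
  set r := Real.sqrt 3 with hr
  set q := Real.sqrt 7 with hq
  have hq0 : 0 < q := by linarith
  have hpi := Real.pi_lt_d4
  have hx1 : (0.6546 : ℝ) ≤ r / q := by rw [le_div_iff₀ hq0]; nlinarith
  have hx2 : r / q ≤ 0.6547 := by rw [div_le_iff₀ hq0]; nlinarith
  have hat : (0.5776 : ℝ) ≤ Real.arctan (r / q) := by
    have h1 := arctan_lb 0.6546 (by norm_num)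
    have h2 := Real.arctan_strictMono.monotone hx1
    norm_num at h1
    linarith
  have hH2 : q / 2 * (0.5776 + 0.6546 / (10 / 7)) ≤ H2 r := by
    unfold H2
    rw [← hq]
    apply mul_le_mul_of_nonneg_left _ (by positivity)
    apply add_le_add hat
    rw [h3]
    norm_num
    rw [div_le_div_iff₀ (by norm_num) (by norm_num)]
    nlinarith
  have hlhs : q / 2 * (Real.pi / 2 + 0) - H2 r ≤ 0.7080 := by
    have e : q / 2 * (Real.pi / 2 + 0) - H2 r ≤ q / 2 * (Real.pi / 2 - (0.5776 + 0.6546 / (10 / 7))) := by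
      linarith
    refine le_trans e ?_
    have h4 : Real.pi / 2 - (0.5776 + 0.6546 / (10 / 7)) ≤ 0.53505 := by
      norm_num; linarith
    have h5 : 0 ≤ Real.pi / 2 - (0.5776 + 0.6546 / (10 / 7)) := by
      have := Real.pi_gt_d4
      norm_num; linarith
    calc q / 2 * (Real.pi / 2 - (0.5776 + 0.6546 / (10 / 7))) ≤ 1.3229 * 0.53505 := by
          apply mul_le_mul _ h4 h5 (by norm_num)
          linarith
      _ ≤ 0.7080 := by norm_num
  have hH1 : (0.7720 : ℝ) ≤ H1 r := by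
    unfold H1
    have e3 : r ^ 3 = 3 * r := by rw [pow_succ, h3]
    have e4 : r ^ 4 = 9 := by rw [show r ^ 4 = (r ^ 2) ^ 2 by ring, h3]; norm_num
    have e5 : r ^ 5 = 9 * r := by rw [pow_succ, e4]
    have e6 : r ^ 6 = 27 := by rw [show r ^ 6 = (r ^ 2) ^ 3 by ring, h3]; norm_num
    have e7 : r ^ 7 = 27 * r := by rw [pow_succ, e6]
    have e8 : r ^ 8 = 81 := by rw [show r ^ 8 = (r ^ 2) ^ 4 by ring, h3]; norm_num
    have e9 : r ^ 9 = 81 * r := by rw [pow_succ, e8]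
    have e10 : r ^ 10 = 243 := by rw [show r ^ 10 = (r ^ 2) ^ 5 by ring, h3]; norm_num
    have e11 : r ^ 11 = 243 * r := by rw [pow_succ, e10]
    rw [e3, e4, e5, e6, e7, e8, e9, e11]
    nlinarith
  linarith

end Pool.Agent.H64.Slab
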