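import Pool.Agent.H64.Slab.Prod
import Pool.Agent.H64.Slab.Num

set_option autoImplicit false

open MeasureTheory Set Filter Topology Complex

namespace Pool.Agent.H64.Slab

/-- the phase factor. -/
noncomputable def QQ (ζ : ℝ) : ℂ := (1 + ζ * I) ^ 3 * cexp (-(3 * ζ : ℝ) * I)

/-- the integrand. -/
noncomputable def AA {m : ℕ} (l : Fin m → ℝ) (ζ : ℝ) : ℂ := QQ ζ * Psi l ζ

theorem norm_QQ_sq (ζ : ℝ) : ‖QQ ζ‖ ^ 2 = (1 + ζ ^ 2) ^ 3 := by
  unfold QQ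
  have h1 : ‖cexp (-(3 * ζ : ℝ) * I)‖ = 1 := by
    rw [← Complex.ofReal_neg, Complex.norm_exp_ofReal_mul_I]
  rw [norm_mul, h1, mul_one, norm_pow, ← pow_mul, mul_comm 3 2, pow_mul, norm_one_add_I_sq]

theorem norm_QQ (ζ : ℝ) : ‖QQ ζ‖ = (1 + ζ ^ 2) ^ ((3 : ℝ) / 2) := by
  have ha := one_add_sq_pos ζ
  have h : ‖QQ ζ‖ ^ 2 = ((1 + ζ ^ 2) ^ ((3 : ℝ) / 2)) ^ 2 := by
    rw [norm_QQ_sq, sq ((1 + ζ ^ 2) ^ ((3 : ℝ) / 2)), ← Real.rpow_add ha, ← Real.rpow_natCast]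
    congr 1
    norm_num
  exact (sq_eq_sq₀ (norm_nonneg _) (Real.rpow_nonneg ha.le _)).1 h

theorem QQ_re (ζ : ℝ) : (QQ ζ).re =
    (1 - 3 * ζ ^ 2) * Real.cos (3 * ζ) + (3 * ζ - ζ ^ 3) * Real.sin (3 * ζ) := by
  unfold QQ
  have e1 : cexp (-(3 * ζ : ℝ) * I) = (Real.cos (3 * ζ) : ℂ) - (Real.sin (3 * ζ) : ℂ) * I := by
    rw [← Complex.ofReal_neg, Complex.exp_mul_I, ← Complex.ofReal_cos, ← Complex.ofReal_sin,
      Real.cos_neg, Real.sin_neg]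
    push_cast; ring
  have e2 : ((1 : ℂ) + ζ * I) ^ 3 = ((1 - 3 * ζ ^ 2 : ℝ) : ℂ) + ((3 * ζ - ζ ^ 3 : ℝ) : ℂ) * I := by
    have hI2 : I ^ 2 = -1 := I_sq
    have hI3 : I ^ 3 = -I := by rw [pow_succ, I_sq]; ring
    push_cast
    ring_nf
    rw [hI2, hI3]
    ring
  rw [e1, e2]
  simp only [mul_re, add_re, sub_re, add_im, sub_im, mul_im, ofReal_re, ofReal_im, I_re, I_im]
  ring

theorem QQ_re_ge_pos : ∀ ζ : ℝ, 0 ≤ ζ → ζ ≤ 0.655 → 1 ≤ (QQ ζ).re := by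
  intro ζ h0 h1
  set f : ℝ → ℝ := fun ζ => (1 - 3 * ζ ^ 2) * Real.cos (3 * ζ) + (3 * ζ - ζ ^ 3) * Real.sin (3 * ζ)
    with hf
  have hd : ∀ x : ℝ, HasDerivAt f (3 * x * ((1 - x ^ 2) * Real.cos (3 * x) +
      2 * x * Real.sin (3 * x))) x := by
    intro x
    have p3 : HasDerivAt (fun x : ℝ => 3 * x) 3 x := by
      simpa using (hasDerivAt_id x).const_mul (3 : ℝ)
    have hc : HasDerivAt (fun x : ℝ => Real.cos (3 * x)) (-Real.sin (3 * x) * 3) x :=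
      (Real.hasDerivAt_cos (3 * x)).comp x p3
    have hs : HasDerivAt (fun x : ℝ => Real.sin (3 * x)) (Real.cos (3 * x) * 3) x :=
      (Real.hasDerivAt_sin (3 * x)).comp x p3
    have a1 : HasDerivAt (fun x : ℝ => 1 - 3 * x ^ 2) (-(3 * (2 * x))) x := by
      have := ((hasDerivAt_pow 2 x).const_mul 3).const_sub 1
      refine this.congr_deriv ?_
      norm_num
    have a2 : HasDerivAt (fun x : ℝ => 3 * x - x ^ 3) (3 - 3 * x ^ 2) x := by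
      have := p3.sub (hasDerivAt_pow 3 x)
      refine this.congr_deriv ?_
      norm_num
    refine ((a1.mul hc).add (a2.mul hs)).congr_deriv ?_
    ring
  have hmono : MonotoneOn f (Icc 0 0.655) := by
    apply monotoneOn_of_deriv_nonneg (convex_Icc 0 0.655)
    · exact fun x _ => (hd x).continuousAt.continuousWithinAt
    · exact fun x _ => (hd x).differentiableAt.differentiableWithinAt
    · intro x hx
      rw [interior_Icc] at hx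
      rw [(hd x).deriv]
      have hx0 : 0 < x := hx.1
      have hx1 : x < 0.655 := hx.2
      apply mul_nonneg (by linarith)
      have hpi1 := Real.pi_gt_d4
      have hpi2 := Real.pi_lt_d4
      rcases le_total (3 * x) (Real.pi / 2) with h | h
      · have hc : 0 ≤ Real.cos (3 * x) := Real.cos_nonneg_of_mem_Icc ⟨by linarith, h⟩
        have hs : 0 ≤ Real.sin (3 * x) := Real.sin_nonneg_of_nonneg_of_le_pi (by linarith) (by linarith)
        have : 0 ≤ 1 - x ^ 2 := by nlinarith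
        positivity
      · set y := 3 * x - Real.pi / 2 with hy
        have hy0 : 0 ≤ y := by linarith
        have hy1 : y ≤ 0.3943 := by linarith
        have ec : Real.cos (3 * x) = - Real.sin y := by
          rw [show 3 * x = y + Real.pi / 2 by rw [hy]; ring, Real.cos_add_pi_div_two]
        have es : Real.sin (3 * x) = Real.cos y := by
          rw [show 3 * x = y + Real.pi / 2 by rw [hy]; ring, Real.sin_add_pi_div_two]
        rw [ec, es]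
        have h1 : Real.sin y ≤ y := Real.sin_le hy0
        have h2 : 1 - y ^ 2 / 2 ≤ Real.cos y := Real.one_sub_sq_div_two_le_cos
        have h3 : 0 ≤ Real.sin y := Real.sin_nonneg_of_nonneg_of_le_pi hy0 (by linarith)
        have h4 : 0.92 ≤ Real.cos y := by nlinarith
        have h5 : (1 - x ^ 2) * Real.sin y ≤ 0.3943 := by nlinarith [sq_nonneg x]
        have h6 : 0.5 ≤ x := by linarith
        nlinarith
  have h2 := hmono (⟨le_rfl, by norm_num⟩ : (0 : ℝ) ∈ Icc 0 0.655) (⟨h0, h1⟩ : ζ ∈ Icc 0 0.655) h0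
  rw [QQ_re]
  simpa [hf] using h2

theorem QQ_re_ge {ζ : ℝ} (h : ζ ^ 2 ≤ 3 / 7) : 1 ≤ (QQ ζ).re := by
  have h1 : (QQ ζ).re = (QQ |ζ|).re := by
    rcases abs_cases ζ with ⟨h2, _⟩ | ⟨h2, _⟩
    · rw [h2]
    · rw [h2, QQ_re, QQ_re]
      rw [show 3 * -ζ = -(3 * ζ) by ring, Real.cos_neg, Real.sin_neg]
      ring
  rw [h1]
  apply QQ_re_ge_pos _ (abs_nonneg _)
  apply abs_le_of_sq_le_sq _ (by norm_num)
  exact le_trans h (by norm_num)

theorem psi_continuous {l : ℝ} (hl : 0 < l) : Continuous (psi l) := by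
  unfold psi
  have hs := sinh_pos hl
  apply Continuous.mul
  · apply Continuous.div
    · fun_prop
    · fun_prop
    · intro ζ
      exact mul_ne_zero (by exact_mod_cast hs.ne') (one_add_I_ne ζ)
  · fun_prop

theorem AA_continuous {m : ℕ} {l : Fin m → ℝ} (hl : ∀ j, 0 < l j) : Continuous (AA l) := by
  unfold AA QQ Psi
  apply Continuous.mul (by fun_prop)
  exact continuous_finsetProd _ (fun j _ => psi_continuous (hl j))

theorem norm_AA_le {m : ℕ} {l : Fin m → ℝ} (hl : ∀ j, 0 < l j) (ζ : ℝ) :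
    ‖AA l ζ‖ ≤ (1 + ζ ^ 2) ^ (-(Om l - 3) / 2) := by
  have ha := one_add_sq_pos ζ
  unfold AA
  rw [norm_mul, norm_QQ]
  have e : (1 + ζ ^ 2) ^ (-(Om l - 3) / 2) =
      (1 + ζ ^ 2) ^ ((3 : ℝ) / 2) * (1 + ζ ^ 2) ^ (-Om l / 2) := by
    rw [← Real.rpow_add ha]; congr 1; ring
  rw [e]
  exact mul_le_mul_of_nonneg_left (norm_Psi_le hl ζ) (Real.rpow_nonneg ha.le _)

/-- Bernoulli: `(1+z)^(p q) ≥ (1 + p z)^q`. -/
theorem rpow_bern {z p q : ℝ} (hz : 0 ≤ z) (hp : 1 ≤ p) (hq : 0 ≤ q) :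
    (1 + z) ^ (-(p * q)) ≤ (1 + p * z) ^ (-q) := by
  have h1 : 1 + p * z ≤ (1 + z) ^ p := one_add_mul_self_le_rpow_one_add (by linarith) hp
  have h2 : 0 < 1 + p * z := by nlinarith
  rw [← mul_neg, Real.rpow_mul (by linarith)]
  exact Real.rpow_le_rpow_of_nonpos h2 h1 (by linarith)

theorem far_bound {m : ℕ} {l : Fin m → ℝ} (hl : ∀ j, 0 < l j) (hΩ : 7 ≤ Om l) (u : ℝ) :
    ‖AA l (u / Real.sqrt (Om l))‖ ≤ h2 u := by
  set Ω := Om l with hΩd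
  have hΩ0 : 0 < Ω := by linarith
  have hz : (u / Real.sqrt Ω) ^ 2 = u ^ 2 / Ω := by rw [div_pow, Real.sq_sqrt hΩ0.le]
  refine le_trans (norm_AA_le hl _) ?_
  rw [← hΩd, hz, show -(Ω - 3) / 2 = -((Ω - 3) / 4 * 2) by ring]
  refine le_trans (rpow_bern (by positivity) (by linarith) (by norm_num)) ?_
  unfold h2
  have h3 : u ^ 2 / 7 ≤ (Ω - 3) / 4 * (u ^ 2 / Ω) := by
    have e : (Ω - 3) / 4 * (u ^ 2 / Ω) = u ^ 2 * ((Ω - 3) / (4 * Ω)) := by field_simp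
    rw [e, div_eq_mul_inv]
    apply mul_le_mul_of_nonneg_left _ (sq_nonneg u)
    rw [← one_div, div_le_div_iff₀ (by norm_num) (by positivity)]
    linarith
  have hb : 0 < 1 + (Ω - 3) / 4 * (u ^ 2 / Ω) := by
    have : 0 ≤ u ^ 2 / 7 := by positivity
    linarith
  rw [Real.rpow_neg hb.le]
  apply inv_anti₀ (by positivity)
  rw [show (2 : ℝ) = ((2 : ℕ) : ℝ) by norm_num, Real.rpow_natCast]
  apply pow_le_pow_left₀ (by positivity)
  linarith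

theorem exp_ge_poly {u : ℝ} : 1 - u ^ 2 / 2 + u ^ 4 / 8 - u ^ 6 / 48 + u ^ 8 / 384 - u ^ 10 / 3840 ≤
    Real.exp (-(u ^ 2 / 2)) := by
  have h := Pool.Agent.H60.Slab.exp_lb5 (u ^ 2 / 2) (by positivity)
  refine le_trans (le_of_eq ?_) h
  ring

theorem near_bound {m : ℕ} {l : Fin m → ℝ} (hl : ∀ j, 0 < l j) (hΩ : 7 ≤ Om l) {u : ℝ}
    (hu : |u| ≤ Real.sqrt 3) :
    h1 |u| ≤ (AA l (u / Real.sqrt (Om l))).re := by
  set Ω := Om l with hΩd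
  have hΩ0 : 0 < Ω := by linarith
  have hsΩ : 0 < Real.sqrt Ω := Real.sqrt_pos.2 hΩ0
  set ζ := u / Real.sqrt Ω with hζ
  have hz : ζ ^ 2 = u ^ 2 / Ω := by rw [hζ, div_pow, Real.sq_sqrt hΩ0.le]
  have hu2 : u ^ 2 ≤ 3 := by
    have := sq_le_sq' (by linarith [abs_nonneg u, Real.sqrt_nonneg 3]) hu
    rw [sq_abs, sq3] at this
    exact this
  have hz7 : ζ ^ 2 ≤ 3 / 7 := by
    rw [hz, div_le_div_iff₀ hΩ0 (by norm_num)]
    nlinarith
  have ha := one_add_sq_pos ζ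
  set g : ℝ := Real.exp (-(Ω * ζ ^ 2 / 2)) with hg
  have hg' : g = Real.exp (-(u ^ 2 / 2)) := by
    rw [hg, hz]; congr 1; field_simp
  have hg0 : 0 ≤ g := (Real.exp_pos _).le
  have hG := Psi_gauss hl ζ
  rw [← hΩd] at hG
  have e1 : AA l ζ = (g : ℂ) * QQ ζ + QQ ζ * (Psi l ζ - (g : ℂ)) := by
    unfold AA; ring
  have h3 : g ≤ ((g : ℂ) * QQ ζ).re := by
    rw [Complex.re_ofReal_mul]
    have := QQ_re_ge hz7
    nlinarith
  have h4 : ‖QQ ζ * (Psi l ζ - (g : ℂ))‖ ≤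
      (Ω * (|ζ| ^ 3 / 2 + ζ ^ 4 / 8)) * (1 + ζ ^ 2) ^ (-(Ω - 4) / 2) := by
    rw [norm_mul, norm_QQ]
    have e2 : (1 + ζ ^ 2) ^ (-(Ω - 4) / 2) =
        (1 + ζ ^ 2) ^ ((3 : ℝ) / 2) * (1 + ζ ^ 2) ^ (-(Ω - 1) / 2) := by
      rw [← Real.rpow_add ha]; congr 1; ring
    rw [e2]
    calc (1 + ζ ^ 2) ^ ((3 : ℝ) / 2) * ‖Psi l ζ - (g : ℂ)‖
        ≤ (1 + ζ ^ 2) ^ ((3 : ℝ) / 2) * (Ω * (|ζ| ^ 3 / 2 + ζ ^ 4 / 8) *
          (1 + ζ ^ 2) ^ (-(Ω - 1) / 2)) :=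
          mul_le_mul_of_nonneg_left hG (Real.rpow_nonneg ha.le _)
      _ = _ := by ring
  have h5 : (1 + ζ ^ 2) ^ (-(Ω - 4) / 2) ≤ (1 + u ^ 2 / 7) ^ (-(3 / 2 : ℝ)) := by
    rw [hz, show -(Ω - 4) / 2 = -((Ω - 4) / 3 * (3 / 2)) by ring]
    refine le_trans (rpow_bern (by positivity) (by linarith) (by norm_num)) ?_
    apply Real.rpow_le_rpow_of_nonpos (by positivity) _ (by norm_num)
    have e : (Ω - 4) / 3 * (u ^ 2 / Ω) = u ^ 2 * ((Ω - 4) / (3 * Ω)) := by field_simp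
    rw [e, div_eq_mul_inv]
    have : u ^ 2 * (7 : ℝ)⁻¹ ≤ u ^ 2 * ((Ω - 4) / (3 * Ω)) := by
      apply mul_le_mul_of_nonneg_left _ (sq_nonneg u)
      rw [← one_div, div_le_div_iff₀ (by norm_num) (by positivity)]
      linarith
    linarith
  have h6 : (1 + u ^ 2 / 7) ^ (-(3 / 2 : ℝ)) ≤ 1 - 3 * |u| ^ 2 / 14 + 9 * |u| ^ 4 / 196 := by
    rw [sq_abs, show |u| ^ 4 = u ^ 4 by rw [pow_abs, abs_of_nonneg (by positivity)]]
    have hb : 0 < 1 + u ^ 2 / 7 := by positivity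
    have h7 : 1 + 3 / 2 * (u ^ 2 / 7) ≤ (1 + u ^ 2 / 7) ^ (3 / 2 : ℝ) :=
      one_add_mul_self_le_rpow_one_add (by linarith [sq_nonneg u, show 0 ≤ u ^ 2 / 7 by positivity])
        (by norm_num)
    rw [Real.rpow_neg hb.le]
    have h8 : 0 < 1 + 3 / 2 * (u ^ 2 / 7) := by positivity
    refine le_trans (inv_anti₀ h8 h7) ?_
    rw [inv_le_iff_one_le_mul₀ h8]
    have e4 : u ^ 4 = u ^ 2 * u ^ 2 := by ring
    have : 0 ≤ u ^ 2 * u ^ 2 * u ^ 2 := by positivity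
    rw [e4]
    nlinarith
  have h7 : Ω * (|ζ| ^ 3 / 2 + ζ ^ 4 / 8) ≤ 0.189 * |u| ^ 3 + |u| ^ 4 / 56 := by
    have e3 : |ζ| = |u| / Real.sqrt Ω := by rw [hζ, abs_div, abs_of_pos hsΩ]
    have e4 : ζ ^ 4 = |ζ| ^ 4 := by rw [pow_abs, abs_of_nonneg (by positivity)]
    have hsq : Real.sqrt Ω ^ 2 = Ω := Real.sq_sqrt hΩ0.le
    have h8 : Real.sqrt 7 ≤ Real.sqrt Ω := Real.sqrt_le_sqrt hΩ
    have h9 := sqrt7_lb
    have e5 : Ω * (|ζ| ^ 3 / 2 + ζ ^ 4 / 8) =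
        |u| ^ 3 * (1 / (2 * Real.sqrt Ω)) + |u| ^ 4 * (1 / (8 * Ω)) := by
      rw [e4, e3, div_pow, div_pow]
      have e6 : Real.sqrt Ω ^ 3 = Ω * Real.sqrt Ω := by rw [pow_succ, hsq]
      have e7 : Real.sqrt Ω ^ 4 = Ω * Ω := by
        rw [show Real.sqrt Ω ^ 4 = (Real.sqrt Ω ^ 2) ^ 2 by ring, hsq]; ring
      rw [e6, e7]
      field_simp
    rw [e5]
    have h10 : 1 / (2 * Real.sqrt Ω) ≤ 0.189 := by
      rw [div_le_iff₀ (by positivity)]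
      nlinarith
    have h11 : 1 / (8 * Ω) ≤ 1 / 56 := by
      apply one_div_le_one_div_of_le (by norm_num); linarith
    have h12 : 0 ≤ |u| ^ 3 := by positivity
    have h13 : 0 ≤ |u| ^ 4 := by positivity
    nlinarith [mul_le_mul_of_nonneg_left h10 h12, mul_le_mul_of_nonneg_left h11 h13]
  have h8 : ‖QQ ζ * (Psi l ζ - (g : ℂ))‖ ≤ (0.189 * |u| ^ 3 + |u| ^ 4 / 56) *
      (1 - 3 * |u| ^ 2 / 14 + 9 * |u| ^ 4 / 196) := by
    refine le_trans h4 ?_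
    apply mul_le_mul h7 (le_trans h5 h6) (Real.rpow_nonneg ha.le _) (by positivity)
  have h9 : -‖QQ ζ * (Psi l ζ - (g : ℂ))‖ ≤ (QQ ζ * (Psi l ζ - (g : ℂ))).re := by
    have := Complex.abs_re_le_norm (QQ ζ * (Psi l ζ - (g : ℂ)))
    linarith [neg_abs_le (QQ ζ * (Psi l ζ - (g : ℂ))).re]
  rw [e1, Complex.add_re]
  have h10 := exp_ge_poly (u := |u|)
  have h11 : Real.exp (-(|u| ^ 2 / 2)) = g := by rw [hg', sq_abs]
  rw [h11] at h10
  unfold h1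
  linarith

end Pool.Agent.H64.Slab
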