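import Mathlib

set_option autoImplicit false

open MeasureTheory Set Filter Topology Complex
open scoped FourierTransform Nat

namespace Pool.Agent.H64.Slab

/-- truncated power. -/
noncomputable def ptr (k : ℕ) (y : ℝ) : ℝ := (max y 0) ^ k / (k ! : ℝ)

theorem ptr_of_nonpos {k : ℕ} (hk : k ≠ 0) {y : ℝ} (hy : y ≤ 0) : ptr k y = 0 := by
  unfold ptr
  rw [max_eq_right hy, zero_pow hk, zero_div]

theorem ptr_of_nonneg {k : ℕ} {y : ℝ} (hy : 0 ≤ y) : ptr k y = y ^ k / (k ! : ℝ) := by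
  unfold ptr
  rw [max_eq_left hy]

theorem ptr_nonneg (k : ℕ) (y : ℝ) : 0 ≤ ptr k y := by
  unfold ptr
  positivity

theorem ptr_continuous (k : ℕ) : Continuous (ptr k) := by
  unfold ptr
  fun_prop

theorem integrableOn_pow_exp (k : ℕ) {θ : ℝ} (hθ : 0 < θ) :
    IntegrableOn (fun v : ℝ => v ^ k * Real.exp (-θ * v)) (Ioi 0) := by
  have h := integrableOn_rpow_mul_exp_neg_mul_rpow (p := 1) (s := (k : ℝ)) (b := θ)
    (by have : (0 : ℝ) ≤ k := Nat.cast_nonneg k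
        linarith) one_pos hθ
  refine h.congr_fun ?_ measurableSet_Ioi
  intro x _
  simp only [Real.rpow_natCast, Real.rpow_one]

theorem integrableOn_pow_cexp (k : ℕ) {z : ℂ} (hz : 0 < z.re) :
    IntegrableOn (fun v : ℝ => ((v : ℂ) ^ k) * cexp (-z * v)) (Ioi 0) := by
  refine Integrable.mono' (integrableOn_pow_exp k hz) ?_ ?_
  · exact (by fun_prop : Continuous (fun v : ℝ => ((v : ℂ) ^ k) * cexp (-z * v))).aestronglyMeasurable
  · refine (ae_restrict_iff' measurableSet_Ioi).2 (Eventually.of_forall fun v hv => ?_)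
    have hv0 : (0 : ℝ) < v := hv
    rw [norm_mul, norm_pow, Complex.norm_real, Real.norm_of_nonneg hv0.le, Complex.norm_exp]
    simp

theorem lap (k : ℕ) {z : ℂ} (hz : 0 < z.re) :
    ∫ v in Ioi (0 : ℝ), ((v : ℂ) ^ k / (k ! : ℂ)) * cexp (-z * v) = 1 / z ^ (k + 1) := by
  have hz0 : z ≠ 0 := by
    intro h; rw [h] at hz; simp at hz
  induction k with
  | zero =>
    have h := integral_exp_mul_complex_Ioi (a := -z) (by simpa using hz) 0
    simp only [pow_zero, Nat.factorial_zero, Nat.cast_one, div_one, one_mul, zero_add, pow_one]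
    rw [h]
    simp
  | succ k ih =>
    have hder : ∀ v ∈ Ici (0 : ℝ), HasDerivAt
        (fun v : ℝ => ((v : ℂ) ^ (k + 1) / ((k + 1) ! : ℂ)) * cexp (-z * v))
        (((v : ℂ) ^ k / (k ! : ℂ)) * cexp (-z * v) -
          z * (((v : ℂ) ^ (k + 1) / ((k + 1) ! : ℂ)) * cexp (-z * v))) v := by
      intro v _
      have h1 : HasDerivAt (fun v : ℝ => (v : ℂ)) 1 v := by
        simpa using (hasDerivAt_id v).ofReal_comp
      have h2 := ((h1.pow (k + 1)).div_const ((k + 1) ! : ℂ))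
      have h3 : HasDerivAt (fun v : ℝ => cexp (-z * v)) (cexp (-z * v) * (-z)) v := by
        have := (h1.const_mul (-z)).cexp
        simpa using this
      have h4 := h2.mul h3
      refine h4.congr_deriv ?_
      have hk : ((k + 1) ! : ℂ) = (k + 1) * (k ! : ℂ) := by
        rw [Nat.factorial_succ]; push_cast; ring
      have hk1 : ((k : ℂ) + 1) ≠ 0 := by exact_mod_cast Nat.succ_ne_zero k
      have hk2 : (k ! : ℂ) ≠ 0 := by exact_mod_cast Nat.factorial_ne_zero k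
      rw [hk]
      simp only [Pi.pow_apply, Nat.add_sub_cancel]
      push_cast
      field_simp
      ring
    have hint1 : IntegrableOn (fun v : ℝ => ((v : ℂ) ^ k / (k ! : ℂ)) * cexp (-z * v)) (Ioi 0) := by
      have := (integrableOn_pow_cexp k hz).const_mul ((k ! : ℂ)⁻¹)
      refine this.congr (Eventually.of_forall fun v => ?_)
      simp only [div_eq_mul_inv]
      ring
    have hint2 : IntegrableOn (fun v : ℝ => ((v : ℂ) ^ (k + 1) / ((k + 1) ! : ℂ)) * cexp (-z * v))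
        (Ioi 0) := by
      have := (integrableOn_pow_cexp (k + 1) hz).const_mul (((k + 1) ! : ℂ)⁻¹)
      refine this.congr (Eventually.of_forall fun v => ?_)
      simp only [div_eq_mul_inv]
      ring
    have hlim : Tendsto (fun v : ℝ => ((v : ℂ) ^ (k + 1) / ((k + 1) ! : ℂ)) * cexp (-z * v)) atTop
        (𝓝 0) := by
      rw [tendsto_zero_iff_norm_tendsto_zero]
      have h1 := Real.tendsto_pow_mul_exp_neg_atTop_nhds_zero (k + 1)
      have h2 : Tendsto (fun v : ℝ => z.re * v) atTop atTop :=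
        tendsto_id.const_mul_atTop hz
      have h3 := (h1.comp h2).const_mul (1 / (z.re ^ (k + 1) * ((k + 1) ! : ℝ)))
      rw [mul_zero] at h3
      refine h3.congr' ?_
      filter_upwards [eventually_ge_atTop (0 : ℝ)] with v hv
      have hz1 : z.re ^ (k + 1) ≠ 0 := pow_ne_zero _ hz.ne'
      have hk2 : ((k + 1) ! : ℝ) ≠ 0 := by exact_mod_cast Nat.factorial_ne_zero (k + 1)
      rw [norm_mul, norm_div, norm_pow, Complex.norm_real, Real.norm_of_nonneg hv,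
        Complex.norm_exp]
      simp only [Function.comp_apply, neg_mul, Complex.neg_re, Complex.mul_re, Complex.ofReal_re,
        Complex.ofReal_im, mul_zero, sub_zero, Complex.norm_natCast]
      rw [mul_pow]
      field_simp
    have hmain := integral_Ioi_of_hasDerivAt_of_tendsto' hder
      (hint1.sub (hint2.const_mul z)) hlim
    rw [integral_sub hint1 (hint2.const_mul z), integral_const_mul, ih] at hmain
    simp only [ofReal_zero, ne_eq, Nat.add_eq_zero_iff, one_ne_zero, and_false, not_false_eq_true,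
      zero_pow, zero_div, zero_mul, sub_zero] at hmain
    have h5 : z * ∫ v in Ioi (0 : ℝ), ((v : ℂ) ^ (k + 1) / ((k + 1) ! : ℂ)) * cexp (-z * v) =
        1 / z ^ (k + 1) := by linear_combination -hmain
    have h6 : ∫ v in Ioi (0 : ℝ), ((v : ℂ) ^ (k + 1) / ((k + 1) ! : ℂ)) * cexp (-z * v) =
        z⁻¹ * (1 / z ^ (k + 1)) := by
      rw [← h5, ← mul_assoc, inv_mul_cancel₀ hz0, one_mul]
    rw [h6, pow_succ z (k + 1)]
    field_simp


/-- the exponentially damped truncated power. -/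
noncomputable def dptr (k : ℕ) (θ : ℝ) (v : ℝ) : ℂ := ((Real.exp (-θ * v) * ptr k v : ℝ) : ℂ)

theorem dptr_continuous (k : ℕ) (θ : ℝ) : Continuous (dptr k θ) := by
  unfold dptr
  have := ptr_continuous k
  fun_prop

theorem dptr_eq_indicator {k : ℕ} (hk : k ≠ 0) (θ : ℝ) :
    dptr k θ = (Ioi (0 : ℝ)).indicator
      (fun v : ℝ => ((v : ℂ) ^ k / (k ! : ℂ)) * cexp (-(θ : ℂ) * v)) := by
  ext v
  unfold dptr
  by_cases h : v ∈ Ioi (0 : ℝ)
  · rw [indicator_of_mem h, ptr_of_nonneg (le_of_lt h)]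
    push_cast
    ring
  · rw [indicator_of_notMem h, ptr_of_nonpos hk (not_lt.1 h)]
    simp

theorem dptr_integrable {k : ℕ} (hk : k ≠ 0) {θ : ℝ} (hθ : 0 < θ) : Integrable (dptr k θ) := by
  rw [dptr_eq_indicator hk, integrable_indicator_iff measurableSet_Ioi]
  have := (integrableOn_pow_cexp k (z := (θ : ℂ)) (by simpa using hθ)).const_mul ((k ! : ℂ)⁻¹)
  refine this.congr (Eventually.of_forall fun v => ?_)
  simp only [div_eq_mul_inv]
  ring

theorem fourier_dptr {k : ℕ} (hk : k ≠ 0) {θ : ℝ} (hθ : 0 < θ) (w : ℝ) :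
    𝓕 (dptr k θ) w = 1 / ((θ : ℂ) + (2 * Real.pi * w : ℝ) * I) ^ (k + 1) := by
  rw [Real.fourier_real_eq_integral_exp_smul]
  have e : ∀ v : ℝ, cexp (((-2 * Real.pi * v * w : ℝ) : ℂ) * I) • dptr k θ v =
      (Ioi (0 : ℝ)).indicator (fun v : ℝ => ((v : ℂ) ^ k / (k ! : ℂ)) *
        cexp (-((θ : ℂ) + (2 * Real.pi * w : ℝ) * I) * v)) v := by
    intro v
    rw [dptr_eq_indicator hk]
    by_cases h : v ∈ Ioi (0 : ℝ)
    · rw [indicator_of_mem h, indicator_of_mem h, smul_eq_mul]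
      rw [mul_left_comm, ← Complex.exp_add]
      congr 2
      push_cast
      ring
    · rw [indicator_of_notMem h, indicator_of_notMem h, smul_zero]
  simp_rw [e]
  rw [integral_indicator measurableSet_Ioi, lap k (by simpa using hθ)]

theorem norm_add_mul_I_sq (θ ξ : ℝ) : ‖(θ : ℂ) + (ξ : ℂ) * I‖ ^ 2 = θ ^ 2 + ξ ^ 2 := by
  rw [← Complex.normSq_eq_norm_sq, Complex.normSq_add_mul_I]

theorem theta_ne {θ : ℝ} (hθ : 0 < θ) (ξ : ℝ) : (θ : ℂ) + (ξ : ℂ) * I ≠ 0 := by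
  intro h
  have := congrArg Complex.re h
  simp at this
  exact hθ.ne' this

theorem inv_pow_bound {k : ℕ} (hk : 1 ≤ k) {θ : ℝ} (hθ : 0 < θ) (ξ : ℝ) :
    ‖1 / ((θ : ℂ) + (ξ : ℂ) * I) ^ (k + 1)‖ ≤ (θ ^ (k - 1))⁻¹ * (θ ^ 2 + ξ ^ 2)⁻¹ := by
  obtain ⟨j, rfl⟩ : ∃ j, k = j + 1 := ⟨k - 1, by omega⟩
  have h0 : 0 < ‖(θ : ℂ) + (ξ : ℂ) * I‖ := norm_pos_iff.2 (theta_ne hθ ξ)
  have h1 : θ ≤ ‖(θ : ℂ) + (ξ : ℂ) * I‖ := by
    have := Complex.abs_re_le_norm ((θ : ℂ) + (ξ : ℂ) * I)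
    simpa [abs_of_pos hθ] using this
  rw [norm_div, norm_one, norm_pow, one_div]
  have e : ‖(θ : ℂ) + (ξ : ℂ) * I‖ ^ (j + 1 + 1) =
      ‖(θ : ℂ) + (ξ : ℂ) * I‖ ^ j * (θ ^ 2 + ξ ^ 2) := by
    rw [← norm_add_mul_I_sq]; ring
  rw [e, mul_inv, Nat.add_sub_cancel]
  apply mul_le_mul_of_nonneg_right _ (by positivity)
  exact inv_anti₀ (by positivity) (pow_le_pow_left₀ hθ.le h1 j)

theorem integrable_inv_sq {θ : ℝ} (hθ : 0 < θ) : Integrable (fun ξ : ℝ => (θ ^ 2 + ξ ^ 2)⁻¹) := by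
  have h := (integrable_inv_one_add_sq.comp_mul_left' (inv_ne_zero hθ.ne')).const_mul ((θ ^ 2)⁻¹)
  refine h.congr (Eventually.of_forall fun ξ => ?_)
  simp only
  rw [← mul_inv]
  congr 1
  field_simp

theorem integrable_inv_pow {k : ℕ} (hk : 1 ≤ k) {θ : ℝ} (hθ : 0 < θ) :
    Integrable (fun ξ : ℝ => 1 / ((θ : ℂ) + (ξ : ℂ) * I) ^ (k + 1)) := by
  refine Integrable.mono' ((integrable_inv_sq hθ).const_mul ((θ ^ (k - 1))⁻¹)) ?_
    (Eventually.of_forall fun ξ => inv_pow_bound hk hθ ξ)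
  refine Continuous.aestronglyMeasurable ?_
  refine Continuous.div continuous_const (by fun_prop) ?_
  intro ξ
  exact pow_ne_zero _ (theta_ne hθ ξ)

theorem dptr_inv {k : ℕ} (hk : 1 ≤ k) {θ : ℝ} (hθ : 0 < θ) (y : ℝ) :
    (2 * Real.pi : ℂ) * dptr k θ y =
      ∫ ξ : ℝ, cexp ((ξ * y : ℝ) * I) * (1 / ((θ : ℂ) + (ξ : ℂ) * I) ^ (k + 1)) := by
  have hk0 : k ≠ 0 := by omega
  have hpi := Real.pi_pos
  have hF : 𝓕 (dptr k θ) = fun w : ℝ => 1 / ((θ : ℂ) + (2 * Real.pi * w : ℝ) * I) ^ (k + 1) :=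
    funext fun w => fourier_dptr hk0 hθ w
  have hFi : Integrable (𝓕 (dptr k θ)) := by
    rw [hF]
    exact (integrable_inv_pow hk hθ).comp_mul_left' (R := 2 * Real.pi) (by positivity)
  have h := congrFun ((dptr_continuous k θ).fourierInv_fourier_eq (dptr_integrable hk0 hθ) hFi) y
  rw [Real.fourierInv_eq', hF] at h
  have h2 : ∫ w : ℝ, cexp (((2 * Real.pi * w * y : ℝ)) * I) *
      (1 / ((θ : ℂ) + (2 * Real.pi * w : ℝ) * I) ^ (k + 1)) = dptr k θ y := by
    rw [← h]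
    congr 1
    ext w
    rw [smul_eq_mul]
    congr 3
    simp
    ring
  have h3 := Measure.integral_comp_mul_left (fun ξ : ℝ => cexp ((ξ * y : ℝ) * I) *
    (1 / ((θ : ℂ) + (ξ : ℂ) * I) ^ (k + 1))) (2 * Real.pi)
  rw [h2, abs_of_pos (by positivity), Complex.real_smul] at h3
  generalize (∫ ξ : ℝ, cexp ((ξ * y : ℝ) * I) * (1 / ((θ : ℂ) + (ξ : ℂ) * I) ^ (k + 1))) = J at h3 ⊢
  rw [h3]
  push_cast
  have : (Real.pi : ℂ) ≠ 0 := by exact_mod_cast hpi.ne'
  field_simp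

/-- Laplace inversion for truncated powers. -/
theorem ptr_inv {k : ℕ} (hk : 1 ≤ k) {θ : ℝ} (hθ : 0 < θ) (y : ℝ) :
    (2 * Real.pi : ℂ) * (ptr k y : ℂ) =
      ∫ ξ : ℝ, cexp (((θ : ℂ) + (ξ : ℂ) * I) * y) / ((θ : ℂ) + (ξ : ℂ) * I) ^ (k + 1) := by
  have h := dptr_inv hk hθ y
  have e1 : (ptr k y : ℂ) = cexp (θ * y) * dptr k θ y := by
    unfold dptr
    push_cast
    rw [← mul_assoc, ← Complex.exp_add]
    simp
  rw [e1, mul_left_comm, h, ← integral_const_mul]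
  congr 1
  ext ξ
  rw [← mul_assoc, ← Complex.exp_add, mul_one_div]
  congr 2
  push_cast
  ring

theorem ptr_inv_integrable {k : ℕ} (hk : 1 ≤ k) {θ : ℝ} (hθ : 0 < θ) (y : ℝ) :
    Integrable (fun ξ : ℝ => cexp (((θ : ℂ) + (ξ : ℂ) * I) * y) /
      ((θ : ℂ) + (ξ : ℂ) * I) ^ (k + 1)) := by
  refine Integrable.mono' ((integrable_inv_sq hθ).const_mul (Real.exp (θ * y) * (θ ^ (k - 1))⁻¹))
    ?_ (Eventually.of_forall fun ξ => ?_)
  · refine Continuous.aestronglyMeasurable ?_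
    refine Continuous.div (by fun_prop) (by fun_prop) ?_
    intro ξ
    exact pow_ne_zero _ (theta_ne hθ ξ)
  · have h := inv_pow_bound hk hθ ξ
    rw [div_eq_mul_one_div, norm_mul, Complex.norm_exp, mul_assoc]
    have e : (((θ : ℂ) + (ξ : ℂ) * I) * (y : ℂ)).re = θ * y := by simp
    rw [e]
    exact mul_le_mul_of_nonneg_left h (Real.exp_pos _).le

end Pool.Agent.H64.Slab
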