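import Pool.Agent.H60.Slab.Sinc

set_option autoImplicit false

open Set Filter Topology

namespace Pool.Agent.H64.Slab

open Pool.Agent.H60.Slab (mono_aux sinc_sq_le)

/-- variance of the exponentially tilted uniform variable (scaled). -/
noncomputable def om (l : ℝ) : ℝ := 1 - l ^ 2 / Real.sinh l ^ 2

/-- mean of the exponentially tilted uniform variable (scaled). -/
noncomputable def ch (l : ℝ) : ℝ := l * Real.cosh l / Real.sinh l - 1

theorem one_add_le_cosh (l : ℝ) : 1 + l ^ 2 / 2 ≤ Real.cosh l := by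
  have h : Real.cosh l = 1 + 2 * Real.sinh (l / 2) ^ 2 := by
    have h1 := Real.cosh_two_mul (l / 2)
    have h2 := Real.cosh_sq (l / 2)
    rw [show 2 * (l / 2) = l by ring] at h1
    rw [h1, h2]; ring
  have h3 : (l / 2) ^ 2 ≤ Real.sinh (l / 2) ^ 2 := by
    apply sq_le_sq.2
    rcases le_total 0 (l / 2) with h4 | h4
    · rw [abs_of_nonneg h4, abs_of_nonneg (Real.sinh_nonneg_iff.2 h4)]
      exact Real.self_le_sinh_iff.2 h4
    · rw [abs_of_nonpos h4, abs_of_nonpos (Real.sinh_nonpos_iff.2 h4)]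
      have := Real.sinh_le_self_iff.2 h4
      linarith
  nlinarith

theorem sinh_sq_ge (l : ℝ) : l ^ 2 + l ^ 4 / 4 ≤ Real.sinh l ^ 2 := by
  have h1 := Real.cosh_sq l
  have h2 := one_add_le_cosh l
  nlinarith [sq_nonneg l, sq_nonneg (l ^ 2)]

theorem sinh_pos {l : ℝ} (hl : 0 < l) : 0 < Real.sinh l := Real.sinh_pos_iff.2 hl

theorem fact_aux (i : ℕ) : 6 ^ i * i.factorial ≤ (2 * i + 1).factorial := by
  induction i with
  | zero => simp
  | succ i ih =>
    have e : (2 * (i + 1) + 1).factorial = (2 * i + 3) * ((2 * i + 2) * (2 * i + 1).factorial) := by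
      rw [show 2 * (i + 1) + 1 = (2 * i + 2) + 1 by ring, Nat.factorial_succ,
        show 2 * i + 2 = (2 * i + 1) + 1 by ring, Nat.factorial_succ]
    rw [e, Nat.factorial_succ, pow_succ]
    calc 6 ^ i * 6 * ((i + 1) * i.factorial) = (6 * (i + 1)) * (6 ^ i * i.factorial) := by ring
      _ ≤ ((2 * i + 3) * (2 * i + 2)) * (2 * i + 1).factorial := by
          apply Nat.mul_le_mul _ ih
          nlinarith
      _ = (2 * i + 3) * ((2 * i + 2) * (2 * i + 1).factorial) := by ring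

theorem sinh_le (x : ℝ) (hx : 0 ≤ x) : Real.sinh x ≤ x * Real.exp (x ^ 2 / 6) := by
  have h1 := Real.hasSum_sinh x
  have h2 : HasSum (fun n : ℕ => (x ^ 2 / 6) ^ n / (n.factorial : ℝ)) (Real.exp (x ^ 2 / 6)) := by
    rw [Real.exp_eq_exp_ℝ]
    exact NormedSpace.expSeries_div_hasSum_exp (x ^ 2 / 6)
  have h3 := h2.mul_left x
  refine hasSum_le (fun i => ?_) h1 h3
  have hf : ((6 : ℝ) ^ i * (i.factorial : ℝ)) ≤ ((2 * i + 1).factorial : ℝ) := by
    exact_mod_cast fact_aux i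
  have hf0 : (0 : ℝ) < (6 : ℝ) ^ i * (i.factorial : ℝ) := by positivity
  have e : x * ((x ^ 2 / 6) ^ i / (i.factorial : ℝ)) =
      x ^ (2 * i + 1) / ((6 : ℝ) ^ i * (i.factorial : ℝ)) := by
    rw [div_pow, ← pow_mul, pow_succ x (2 * i)]
    field_simp
  rw [e]
  exact div_le_div_of_nonneg_left (by positivity) hf0 hf

theorem om_nonneg {l : ℝ} (hl : 0 < l) : 0 ≤ om l := by
  unfold om
  have h := sinh_sq_ge l
  have h0 := sinh_pos hl
  rw [sub_nonneg, div_le_one (by positivity)]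
  have : 0 ≤ l ^ 4 / 4 := by positivity
  linarith

theorem om_pos {l : ℝ} (hl : 0 < l) : 0 < om l := by
  unfold om
  have h := sinh_sq_ge l
  have h0 := sinh_pos hl
  rw [sub_pos, div_lt_one (by positivity)]
  have : 0 < l ^ 4 / 4 := by positivity
  linarith

theorem om_le_one (l : ℝ) : om l ≤ 1 := by
  unfold om
  have : 0 ≤ l ^ 2 / Real.sinh l ^ 2 := by positivity
  linarith

/-- `1 / l^2 - 1 / sinh^2 l ≤ 1/3`. -/
theorem om_le {l : ℝ} (hl : 0 < l) : om l ≤ l ^ 2 / 3 := by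
  unfold om
  have h0 := sinh_pos hl
  rcases le_total 3 (l ^ 2) with h | h
  · have : 0 ≤ l ^ 2 / Real.sinh l ^ 2 := by positivity
    linarith
  · have h1 := sinh_le l hl.le
    have h2 : Real.sinh l ^ 2 ≤ l ^ 2 * Real.exp (l ^ 2 / 3) := by
      calc Real.sinh l ^ 2 ≤ (l * Real.exp (l ^ 2 / 6)) ^ 2 := by
            apply pow_le_pow_left₀ h0.le h1
        _ = l ^ 2 * Real.exp (l ^ 2 / 3) := by
            rw [mul_pow, ← Real.exp_nat_mul]
            congr 2
            push_cast; ring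
    have h3 : 1 - l ^ 2 / 3 ≤ Real.exp (-(l ^ 2 / 3)) := by
      have := Real.add_one_le_exp (-(l ^ 2 / 3))
      linarith
    have h4 : Real.exp (l ^ 2 / 3) * Real.exp (-(l ^ 2 / 3)) = 1 := by
      rw [← Real.exp_add]; simp
    have h5 : (1 - l ^ 2 / 3) * Real.sinh l ^ 2 ≤ l ^ 2 := by
      calc (1 - l ^ 2 / 3) * Real.sinh l ^ 2
          ≤ Real.exp (-(l ^ 2 / 3)) * (l ^ 2 * Real.exp (l ^ 2 / 3)) := by
            apply mul_le_mul h3 h2 (by positivity) (Real.exp_pos _).le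
        _ = l ^ 2 * (Real.exp (l ^ 2 / 3) * Real.exp (-(l ^ 2 / 3))) := by ring
        _ = l ^ 2 := by rw [h4, mul_one]
    have h6 : 1 - l ^ 2 / 3 ≤ l ^ 2 / Real.sinh l ^ 2 := by
      rw [le_div_iff₀ (by positivity)]; exact h5
    linarith

/-- `om l ≥ l^2 / (4 + l^2)`. -/
theorem om_ge {l : ℝ} (hl : 0 < l) : l ^ 2 / (4 + l ^ 2) ≤ om l := by
  unfold om
  have h0 := sinh_pos hl
  have h := sinh_sq_ge l
  have h1 : l ^ 2 / Real.sinh l ^ 2 ≤ l ^ 2 / (l ^ 2 + l ^ 4 / 4) := by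
    apply div_le_div_of_nonneg_left (by positivity) (by positivity) h
  have h2 : l ^ 2 / (l ^ 2 + l ^ 4 / 4) = 4 / (4 + l ^ 2) := by
    field_simp
  rw [h2] at h1
  have h3 : l ^ 2 / (4 + l ^ 2) = 1 - 4 / (4 + l ^ 2) := by
    field_simp; ring
  rw [h3]
  linarith

/-- `sinh l / l` is monotone. -/
theorem sinh_div_mono {l m : ℝ} (hl : 0 < l) (hlm : l ≤ m) :
    Real.sinh l / l ≤ Real.sinh m / m := by
  have hm : 0 < m := lt_of_lt_of_le hl hlm
  have hmono : MonotoneOn (fun x : ℝ => Real.sinh x / x) (Ici l) := by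
    apply monotoneOn_of_deriv_nonneg (convex_Ici l)
    · apply ContinuousOn.div Real.continuous_sinh.continuousOn continuousOn_id
      intro x hx
      exact (lt_of_lt_of_le hl hx).ne'
    · intro x hx
      rw [interior_Ici] at hx
      have hx0 : x ≠ 0 := (lt_trans hl hx).ne'
      exact ((Real.hasDerivAt_sinh x).div (hasDerivAt_id x) hx0).differentiableAt.differentiableWithinAt
    · intro x hx
      rw [interior_Ici] at hx
      have hx0 : 0 < x := lt_trans hl hx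
      have hd := ((Real.hasDerivAt_sinh x).div (hasDerivAt_id x) hx0.ne').deriv
      have e : deriv (fun x : ℝ => Real.sinh x / x) x =
        (Real.cosh x * x - Real.sinh x * 1) / x ^ 2 := hd
      rw [e]
      apply div_nonneg _ (by positivity)
      have key : ∀ y : ℝ, 0 ≤ y → Real.sinh y ≤ y * Real.cosh y := by
        apply mono_aux (f := Real.cosh) (g := fun y => Real.cosh y + y * Real.sinh y)
        · exact Real.hasDerivAt_sinh
        · intro y
          have := (hasDerivAt_id y).mul (Real.hasDerivAt_cosh y)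
          refine this.congr_deriv ?_
          simp
        · simp
        · intro y hy
          have := mul_nonneg hy (Real.sinh_nonneg_iff.2 hy)
          linarith
      have := key x hx0.le
      linarith
  exact hmono (self_mem_Ici) (show l ≤ m from hlm) hlm

theorem om_mono {l m : ℝ} (hl : 0 < l) (hlm : l ≤ m) : om l ≤ om m := by
  have hm : 0 < m := lt_of_lt_of_le hl hlm
  have h := sinh_div_mono hl hlm
  have h1 := sinh_pos hl
  have h2 := sinh_pos hm
  unfold om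
  have e1 : l ^ 2 / Real.sinh l ^ 2 = ((Real.sinh l / l) ^ 2)⁻¹ := by
    rw [div_pow, inv_div]
  have e2 : m ^ 2 / Real.sinh m ^ 2 = ((Real.sinh m / m) ^ 2)⁻¹ := by
    rw [div_pow, inv_div]
  rw [e1, e2]
  have h3 : (Real.sinh l / l) ^ 2 ≤ (Real.sinh m / m) ^ 2 :=
    pow_le_pow_left₀ (by positivity) h 2
  have h4 := inv_anti₀ (by positivity) h3
  linarith

theorem om_continuousOn : ContinuousOn om (Ioi 0) := by
  unfold om
  apply ContinuousOn.sub continuousOn_const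
  apply ContinuousOn.div (by fun_prop)
  · exact (Real.continuous_sinh.pow 2).continuousOn
  · intro x hx
    have := sinh_pos hx
    positivity

theorem ch_continuousOn : ContinuousOn ch (Ioi 0) := by
  unfold ch
  apply ContinuousOn.sub _ continuousOn_const
  apply ContinuousOn.div
  · exact (continuous_id.mul Real.continuous_cosh).continuousOn
  · exact Real.continuous_sinh.continuousOn
  · intro x hx
    exact (sinh_pos hx).ne'

theorem sinh_le_cosh (l : ℝ) : Real.sinh l ≤ Real.cosh l := (Real.sinh_lt_cosh l).le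

theorem ch_ge {l : ℝ} (hl : 0 < l) : l - 1 ≤ ch l := by
  unfold ch
  have h0 := sinh_pos hl
  have h1 := sinh_le_cosh l
  have h2 : l ≤ l * Real.cosh l / Real.sinh l := by
    rw [le_div_iff₀ h0]
    exact mul_le_mul_of_nonneg_left h1 hl.le
  linarith

/-- the key inequality linking mean and variance. -/
theorem ch_add_le {l ρ : ℝ} (hl : 0 < l) (hρ : ρ ≤ 1 / 2) :
    ch l + ρ * om l ≤ l * Real.sqrt (om l) := by
  have hs := sinh_pos hl
  set s := Real.sinh l with hsdef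
  have hc2 : Real.cosh l ^ 2 = s ^ 2 + 1 := Real.cosh_sq l
  have hc1 := one_add_le_cosh l
  set c := Real.cosh l with hcdef
  have hss := sinh_sq_ge l
  rw [← hsdef] at hss
  have hsq : Real.sqrt (om l) = Real.sqrt (s ^ 2 - l ^ 2) / s := by
    have e : om l = (s ^ 2 - l ^ 2) / s ^ 2 := by
      unfold om; rw [← hsdef]; field_simp
    rw [e, Real.sqrt_div' _ (by positivity), Real.sqrt_sq hs.le]
  set w := Real.sqrt (s ^ 2 - l ^ 2) with hw
  have hl4 : 0 ≤ l ^ 4 / 4 := by positivity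
  have hw2 : w ^ 2 = s ^ 2 - l ^ 2 := Real.sq_sqrt (by linarith)
  have hw0 : 0 ≤ w := Real.sqrt_nonneg _
  have hwl : l ^ 2 / 2 ≤ w := by
    apply Real.le_sqrt_of_sq_le
    nlinarith
  have hcw : c - w ≤ 1 := by
    have h1 : (c - w) * (c + w) = 1 + l ^ 2 := by nlinarith
    have h2 : 1 + l ^ 2 ≤ c + w := by linarith
    by_contra hcon
    push Not at hcon
    nlinarith
  have hls : l ≤ s := Real.self_le_sinh_iff.2 hl.le
  -- goal : l c / s - 1 + ρ (1 - l²/s²) ≤ l w / s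
  unfold ch om
  rw [← hsdef, ← hcdef] at *
  have hom : om l = 1 - l ^ 2 / s ^ 2 := by unfold om; rw [← hsdef]
  rw [← hom, hsq, hom]
  have e1 : l * c / s - 1 + ρ * (1 - l ^ 2 / s ^ 2) =
      (l * c * s - s ^ 2 + ρ * (s ^ 2 - l ^ 2)) / s ^ 2 := by
    field_simp
  have e2 : l * (w / s) = (l * w * s) / s ^ 2 := by
    field_simp
  rw [e1, e2]
  apply div_le_div_of_nonneg_right _ (by positivity)
  have h3 : l * s * (c - w) ≤ l * s := by
    have : 0 ≤ l * s := by positivity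
    nlinarith
  have h4 : ρ * (s ^ 2 - l ^ 2) ≤ (1 / 2) * (s ^ 2 - l ^ 2) := by
    apply mul_le_mul_of_nonneg_right hρ
    nlinarith
  nlinarith [sq_nonneg (s - l)]

/-- `sin^2 τ (1 + τ^2/3) ≤ τ^2`. -/
theorem sin_sq_le (τ : ℝ) : Real.sin τ ^ 2 * (1 + τ ^ 2 / 3) ≤ τ ^ 2 := by
  by_cases h : τ = 0
  · subst h; simp
  · have h1 := sinc_sq_le τ
    rw [Real.sinc_of_ne_zero h, div_pow] at h1
    have h2 : 0 < τ ^ 2 := by positivity
    have h3 : Real.sin τ ^ 2 / τ ^ 2 * (1 + τ ^ 2 / 3) * τ ^ 2 ≤ 1 * τ ^ 2 :=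
      mul_le_mul_of_nonneg_right h1 h2.le
    have e : Real.sin τ ^ 2 / τ ^ 2 * (1 + τ ^ 2 / 3) * τ ^ 2 =
        Real.sin τ ^ 2 * (1 + τ ^ 2 / 3) := by
      field_simp
    rw [e] at h3
    linarith

/-- the universal modulus bound. -/
theorem modulus_ineq {l : ℝ} (hl : 0 < l) (ζ : ℝ) :
    (1 + Real.sin (l * ζ) ^ 2 / Real.sinh l ^ 2) / (1 + ζ ^ 2) ≤ (1 + ζ ^ 2) ^ (-om l) := by
  have hs := sinh_pos hl
  set s := Real.sinh l with hsdef
  set p : ℝ := l ^ 2 / s ^ 2 with hp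
  have hom : om l = 1 - p := rfl
  have hp1 : p ≤ 1 := by have := om_nonneg hl; linarith
  have hp0 : 0 < p := by positivity
  have ha : 0 < 1 + ζ ^ 2 := by positivity
  have homl := om_le hl
  have h1 : (1 + ζ ^ 2) ^ (-p) ≤ 1 - p * ζ ^ 2 / (1 + ζ ^ 2) := by
    have h2 : (1 + ζ ^ 2) ^ (-p) = (1 + (-(ζ ^ 2 / (1 + ζ ^ 2)))) ^ p := by
      rw [Real.rpow_neg ha.le, ← Real.inv_rpow ha.le]
      congr 1
      field_simp; ring
    rw [h2]
    have h3 := rpow_one_add_le_one_add_mul_self (s := -(ζ ^ 2 / (1 + ζ ^ 2)))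
      (by rw [neg_le_neg_iff, div_le_one ha]; linarith) hp0.le hp1
    refine le_trans h3 (le_of_eq ?_)
    ring
  have h4 : 0 < (1 + ζ ^ 2) ^ (-p) := Real.rpow_pos_of_pos ha _
  have h5 : (1 + Real.sin (l * ζ) ^ 2 / s ^ 2) * (1 - p * ζ ^ 2 / (1 + ζ ^ 2)) ≤ 1 := by
    have h6 := sin_sq_le (l * ζ)
    have e1 : 1 - p * ζ ^ 2 / (1 + ζ ^ 2) = (1 + (1 - p) * ζ ^ 2) / (1 + ζ ^ 2) := by
      field_simp; ring
    have e2 : 1 + Real.sin (l * ζ) ^ 2 / s ^ 2 = (s ^ 2 + Real.sin (l * ζ) ^ 2) / s ^ 2 := by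
      field_simp
    rw [e1, e2, div_mul_div_comm, div_le_one (by positivity)]
    have h7 : (1 - p) ≤ l ^ 2 / 3 := by rw [← hom]; exact homl
    have h8 : Real.sin (l * ζ) ^ 2 * (1 + (1 - p) * ζ ^ 2) ≤ l ^ 2 * ζ ^ 2 := by
      have h9 : 1 + (1 - p) * ζ ^ 2 ≤ 1 + (l * ζ) ^ 2 / 3 := by
        nlinarith [mul_le_mul_of_nonneg_right h7 (sq_nonneg ζ)]
      calc Real.sin (l * ζ) ^ 2 * (1 + (1 - p) * ζ ^ 2)
          ≤ Real.sin (l * ζ) ^ 2 * (1 + (l * ζ) ^ 2 / 3) :=
            mul_le_mul_of_nonneg_left h9 (sq_nonneg _)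
        _ ≤ (l * ζ) ^ 2 := h6
        _ = l ^ 2 * ζ ^ 2 := by ring
    have h10 : s ^ 2 * p = l ^ 2 := by rw [hp]; field_simp
    nlinarith
  rw [hom, show -(1 - p) = -1 + p by ring, Real.rpow_add ha, Real.rpow_neg_one,
    div_eq_mul_inv, mul_comm ((1 + ζ ^ 2)⁻¹)]
  apply mul_le_mul_of_nonneg_right _ (by positivity)
  -- 1 + sin²/s² ≤ (1+ζ²)^p
  have h11 : (1 + ζ ^ 2) ^ p * (1 + ζ ^ 2) ^ (-p) = 1 := by
    rw [← Real.rpow_add ha]; simp
  have h12 : (1 + Real.sin (l * ζ) ^ 2 / s ^ 2) * (1 + ζ ^ 2) ^ (-p) ≤ 1 :=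
    le_trans (mul_le_mul_of_nonneg_left h1 (by positivity)) h5
  by_contra hcon
  push Not at hcon
  have := mul_lt_mul_of_pos_right hcon h4
  linarith

end Pool.Agent.H64.Slab
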