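import Pool.Agent.H64.Slab.Vol
import Pool.Agent.H64.Slab.Chain

set_option autoImplicit false

open MeasureTheory Set Filter Topology

namespace Pool.Agent.H64.Slab

open Pool.Agent.H60.Slab

/-- normalised iterated difference. -/
noncomputable def Dk {m : ℕ} (b : Fin m → ℝ) (k : ℕ) (y : ℝ) : ℝ := (∏ j, b j)⁻¹ * cdiff b (ptr k) y

theorem Dk_hasDerivAt {m : ℕ} (b : Fin m → ℝ) {k : ℕ} (hk : 1 ≤ k) (y : ℝ) :
    HasDerivAt (Dk b (k + 1)) (Dk b k y) y :=
  (cdiff_hasDerivAt b (fun y => ptr_hasDerivAt hk y) y).const_mul _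

theorem sym_plus {m : ℕ} (b : Fin m → ℝ) {k : ℕ} (hk : 1 ≤ k) (t τ : ℝ) :
    HasDerivAt (fun τ => Dk b (k + 1) (τ - t) + Dk b (k + 1) (-τ - t))
      (Dk b k (τ - t) - Dk b k (-τ - t)) τ := by
  have h1 := (Dk_hasDerivAt b hk (τ - t)).comp_sub_const τ t
  have h3 : HasDerivAt (fun x : ℝ => -x - t) (-1) τ := by
    simpa using (hasDerivAt_neg τ).sub_const t
  have h2 := (Dk_hasDerivAt b hk (-τ - t)).comp τ h3
  refine (h1.add h2).congr_deriv ?_
  ring

theorem sym_minus {m : ℕ} (b : Fin m → ℝ) {k : ℕ} (hk : 1 ≤ k) (t τ : ℝ) :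
    HasDerivAt (fun τ => Dk b (k + 1) (τ - t) - Dk b (k + 1) (-τ - t))
      (Dk b k (τ - t) + Dk b k (-τ - t)) τ := by
  have h1 := (Dk_hasDerivAt b hk (τ - t)).comp_sub_const τ t
  have h3 : HasDerivAt (fun x : ℝ => -x - t) (-1) τ := by
    simpa using (hasDerivAt_neg τ).sub_const t
  have h2 := (Dk_hasDerivAt b hk (-τ - t)).comp τ h3
  refine (h1.sub h2).congr_deriv ?_
  ring

theorem RR_zero {m : ℕ} (b : Fin m → ℝ) (hb : ∀ j, 0 < b j) {t τ : ℝ} (hτ : 0 ≤ τ)
    (h : τ + ∑ j, b j ≤ t) : RR b t τ = 0 := by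
  unfold RR
  rw [WW_eq b hb (by norm_num), WW_eq b hb (by norm_num),
    cdiff_zero_of_nonpos b (fun j => (hb j).le) (fun y hy => ptr_of_nonpos (by omega) hy) _
      (by linarith),
    cdiff_zero_of_nonpos b (fun j => (hb j).le) (fun y hy => ptr_of_nonpos (by omega) hy) _
      (by linarith)]
  simp

theorem RR_slope {m : ℕ} (b : Fin m → ℝ) (hb : ∀ j, 0 < b j) {t s u v : ℝ}
    (ht : Real.sqrt (2 * s) + Real.sqrt 7 * Real.sqrt (∑ j, b j ^ 2) ≤ t)
    (hu : 0 < u) (huv : u ≤ v) (hvs : v ≤ s) :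
    (RR b t (Real.sqrt (s + u)) - RR b t (Real.sqrt (s - u))) / u ≤
      (RR b t (Real.sqrt (s + v)) - RR b t (Real.sqrt (s - v))) / v := by
  have hv : 0 < v := lt_of_lt_of_le hu huv
  have hs : 0 < s := lt_of_lt_of_le hv hvs
  rcases Nat.lt_or_ge m 5 with hm | hm
  · -- trivial case
    have hS : ∑ j, b j ≤ Real.sqrt 7 * Real.sqrt (∑ j, b j ^ 2) := by
      rw [← Real.sqrt_mul (by norm_num)]
      apply Real.le_sqrt_of_sq_le
      have h1 := sq_sum_le_card_mul_sum_sq (s := (Finset.univ : Finset (Fin m))) (f := b)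
      simp only [Finset.card_univ, Fintype.card_fin] at h1
      have h2 : (m : ℝ) ≤ 7 := by
        have : m ≤ 7 := by omega
        exact_mod_cast this
      have h3 : 0 ≤ ∑ j, b j ^ 2 := Finset.sum_nonneg (fun j _ => sq_nonneg _)
      nlinarith
    have hz : ∀ w : ℝ, w ≤ 2 * s → RR b t (Real.sqrt w) = 0 := by
      intro w hw
      apply RR_zero b hb (Real.sqrt_nonneg _)
      have := Real.sqrt_le_sqrt hw
      linarith
    rw [hz _ (by linarith), hz _ (by linarith), hz _ (by linarith), hz _ (by linarith)]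
    simp
  · obtain ⟨n, rfl⟩ : ∃ n, m = n + 4 := ⟨m - 4, by omega⟩
    have hn : 1 ≤ n := by omega
    have hR : RR b t = fun τ => Dk b (n + 5 + 1) (τ - t) + Dk b (n + 5 + 1) (-τ - t) := by
      ext τ
      unfold RR Dk
      rw [WW_eq b hb (by norm_num), WW_eq b hb (by norm_num), show 2 + (n + 4) = n + 5 + 1 by ring]
    rw [hR]
    apply slope_mono (c := Real.sqrt (2 * s))
      (R0 := fun τ => Dk b (n + 5 + 1) (τ - t) + Dk b (n + 5 + 1) (-τ - t))
      (R1 := fun τ => Dk b (n + 4 + 1) (τ - t) - Dk b (n + 4 + 1) (-τ - t))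
      (R2 := fun τ => Dk b (n + 3 + 1) (τ - t) + Dk b (n + 3 + 1) (-τ - t))
      (R3 := fun τ => Dk b (n + 2 + 1) (τ - t) - Dk b (n + 2 + 1) (-τ - t))
      (R4 := fun τ => Dk b (n + 1 + 1) (τ - t) + Dk b (n + 1 + 1) (-τ - t))
      (R5 := fun τ => Dk b (n + 0 + 1) (τ - t) - Dk b (n + 0 + 1) (-τ - t))
      (R6 := fun τ => Dk b n (τ - t) + Dk b n (-τ - t))
    · exact fun x => sym_plus b (by omega) t x
    · exact fun x => sym_minus b (by omega) t x
    · exact fun x => sym_plus b (by omega) t x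
    · exact fun x => sym_minus b (by omega) t x
    · exact fun x => sym_plus b (by omega) t x
    · exact fun x => sym_minus b (by omega) t x
    · simp
    · simp
    · simp
    · exact Real.sqrt_nonneg _
    · intro x hx
      have hprod : 0 ≤ (∏ j, b j)⁻¹ := inv_nonneg.2 (Finset.prod_nonneg (fun j _ => (hb j).le))
      unfold Dk
      have h1 := cdiff_nonneg hn b hb (x := t - x) (by linarith [hx.2])
      have h2 := cdiff_nonneg hn b hb (x := t + x) (by
        have := hx.1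
        have h3 := Real.sqrt_nonneg (2 * s)
        linarith)
      rw [show x - t = -(t - x) by ring, show -x - t = -(t + x) by ring]
      exact add_nonneg (mul_nonneg hprod h1) (mul_nonneg hprod h2)
    · rw [Real.sq_sqrt (by linarith)]
    · exact hu
    · exact huv
    · exact hvs

theorem RR_abs {m : ℕ} (b : Fin m → ℝ) (t τ : ℝ) : RR b t |τ| = RR b t τ := by
  rcases abs_cases τ with ⟨h, _⟩ | ⟨h, _⟩ <;> rw [h]
  unfold RR
  rw [neg_neg, add_comm]

/-- FV through `s` and `u = 2 α β`. -/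
theorem FV_pair' {m : ℕ} (a : Fin (m + 2) → ℝ) (i : Fin (m + 2)) (j : Fin (m + 1))
    (hα : 0 < a i) (hβ : 0 < a (i.succAbove j)) {t : ℝ} (ht : 0 ≤ t) :
    FV a t 0 = 2 ^ m * 4 - 4 *
      ((RR (fun k => a (i.succAbove (j.succAbove k))) t
          (Real.sqrt ((a i ^ 2 + a (i.succAbove j) ^ 2) + 2 * (a i * a (i.succAbove j)))) -
        RR (fun k => a (i.succAbove (j.succAbove k))) t
          (Real.sqrt ((a i ^ 2 + a (i.succAbove j) ^ 2) - 2 * (a i * a (i.succAbove j))))) /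
        (2 * (a i * a (i.succAbove j)))) := by
  rw [FV_pair a i j hα hβ ht]
  set α := a i
  set β := a (i.succAbove j)
  have e1 : Real.sqrt (α ^ 2 + β ^ 2 + 2 * (α * β)) = α + β := by
    rw [show α ^ 2 + β ^ 2 + 2 * (α * β) = (α + β) ^ 2 by ring, Real.sqrt_sq (by positivity)]
  have e2 : Real.sqrt (α ^ 2 + β ^ 2 - 2 * (α * β)) = |α - β| := by
    rw [show α ^ 2 + β ^ 2 - 2 * (α * β) = (α - β) ^ 2 by ring, Real.sqrt_sq_eq_abs]
  rw [e1, e2, RR_abs]
  have : α * β ≠ 0 := by positivity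
  field_simp
  ring

/-- moving two coordinates closer decreases the volume. -/
theorem FV_pair_le {m : ℕ} (a a' : Fin (m + 2) → ℝ) (i : Fin (m + 2)) (j : Fin (m + 1))
    (ha : ∀ k, 0 < a k) (ha' : ∀ k, 0 < a' k)
    (hrest : ∀ k, a' (i.succAbove (j.succAbove k)) = a (i.succAbove (j.succAbove k)))
    (hsq : a' i ^ 2 + a' (i.succAbove j) ^ 2 = a i ^ 2 + a (i.succAbove j) ^ 2)
    (hprod : a i * a (i.succAbove j) ≤ a' i * a' (i.succAbove j))
    (hsum : ∑ k, a k ^ 2 = 1) {t : ℝ} (ht : 3 ≤ t) : FV a' t 0 ≤ FV a t 0 := by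
  rw [FV_pair' a i j (ha _) (ha _) (by linarith), FV_pair' a' i j (ha' _) (ha' _) (by linarith), hsq]
  have hb : (fun k => a' (i.succAbove (j.succAbove k))) = fun k => a (i.succAbove (j.succAbove k)) :=
    funext hrest
  rw [hb]
  set α := a i with hαd
  set β := a (i.succAbove j) with hβd
  set b : Fin m → ℝ := fun k => a (i.succAbove (j.succAbove k)) with hbd
  have hα : 0 < α := ha _
  have hβ : 0 < β := ha _
  have hV : ∑ k, b k ^ 2 = 1 - (α ^ 2 + β ^ 2) := by
    rw [← hsum, Fin.sum_univ_succAbove _ i, Fin.sum_univ_succAbove _ j]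
    ring
  have hV0 : 0 ≤ ∑ k, b k ^ 2 := Finset.sum_nonneg (fun j _ => sq_nonneg _)
  have key := RR_slope b (fun k => ha _) (t := t) (s := α ^ 2 + β ^ 2) (u := 2 * (α * β))
    (v := 2 * (a' i * a' (i.succAbove j))) (by
      refine le_trans ?_ ht
      set V := ∑ k, b k ^ 2 with hVd
      have hs0 : 0 ≤ α ^ 2 + β ^ 2 := by positivity
      have h1 : (Real.sqrt (2 * (α ^ 2 + β ^ 2)) + Real.sqrt 7 * Real.sqrt V) ^ 2 ≤ 3 ^ 2 := by
        have e1 : Real.sqrt (2 * (α ^ 2 + β ^ 2)) = Real.sqrt 2 * Real.sqrt (α ^ 2 + β ^ 2) :=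
          Real.sqrt_mul (by norm_num) _
        rw [e1]
        set A := Real.sqrt 2 with hA
        set B := Real.sqrt 7 with hB
        set p := Real.sqrt (α ^ 2 + β ^ 2) with hp
        set q := Real.sqrt V with hq
        have hA2 : A ^ 2 = 2 := Real.sq_sqrt (by norm_num)
        have hB2 : B ^ 2 = 7 := Real.sq_sqrt (by norm_num)
        have hp2 : p ^ 2 = α ^ 2 + β ^ 2 := Real.sq_sqrt hs0
        have hq2 : q ^ 2 = V := Real.sq_sqrt hV0
        have hpq : p ^ 2 + q ^ 2 = 1 := by rw [hp2, hq2, hV]; ring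
        -- (A p + B q)^2 ≤ (A^2+B^2)(p^2+q^2)
        have : (A * p + B * q) ^ 2 + (A * q - B * p) ^ 2 = (A ^ 2 + B ^ 2) * (p ^ 2 + q ^ 2) := by ring
        rw [hpq, hA2, hB2] at this
        nlinarith [sq_nonneg (A * q - B * p)]
      exact abs_le_of_sq_le_sq' h1 (by norm_num) |>.2)
    (by positivity) (by linarith) (by
      have := sq_nonneg (a' i - a' (i.succAbove j))
      nlinarith)
  linarith

end Pool.Agent.H64.Slab
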