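import Pool.Agent.H64.Slab.Psi

set_option autoImplicit false

open MeasureTheory Set Filter Topology Complex

namespace Pool.Agent.H64.Slab

theorem prod_diff_aux {ι : Type*} (s : Finset ι) (u v : ι → ℂ) (w ε : ι → ℝ)
    (hw : ∀ i ∈ s, 0 < w i) (hu : ∀ i ∈ s, ‖u i‖ ≤ w i) (hv : ∀ i ∈ s, ‖v i‖ ≤ w i)
    (hε : ∀ i ∈ s, ‖u i - v i‖ ≤ ε i) :
    ‖∏ i ∈ s, u i - ∏ i ∈ s, v i‖ ≤ (∑ i ∈ s, ε i / w i) * ∏ i ∈ s, w i := by
  classical
  induction s using Finset.induction_on with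
  | empty => simp
  | insert a s ha ih =>
    rw [Finset.prod_insert ha, Finset.prod_insert ha, Finset.sum_insert ha, Finset.prod_insert ha]
    have h1 := ih (fun i hi => hw i (Finset.mem_insert_of_mem hi))
      (fun i hi => hu i (Finset.mem_insert_of_mem hi))
      (fun i hi => hv i (Finset.mem_insert_of_mem hi))
      (fun i hi => hε i (Finset.mem_insert_of_mem hi))
    have hwa := hw a (Finset.mem_insert_self a s)
    have hua := hu a (Finset.mem_insert_self a s)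
    have hεa := hε a (Finset.mem_insert_self a s)
    have hV : ‖∏ i ∈ s, v i‖ ≤ ∏ i ∈ s, w i := by
      rw [norm_prod]
      exact Finset.prod_le_prod (fun i _ => norm_nonneg _)
        (fun i hi => hv i (Finset.mem_insert_of_mem hi))
    have e : u a * ∏ i ∈ s, u i - v a * ∏ i ∈ s, v i =
        u a * (∏ i ∈ s, u i - ∏ i ∈ s, v i) + (u a - v a) * ∏ i ∈ s, v i := by ring
    rw [e]
    refine le_trans (norm_add_le _ _) ?_
    rw [norm_mul, norm_mul]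
    have h2 : ‖u a‖ * ‖∏ i ∈ s, u i - ∏ i ∈ s, v i‖ ≤
        w a * ((∑ i ∈ s, ε i / w i) * ∏ i ∈ s, w i) :=
      mul_le_mul hua h1 (norm_nonneg _) hwa.le
    have h3 : ‖u a - v a‖ * ‖∏ i ∈ s, v i‖ ≤ ε a * ∏ i ∈ s, w i :=
      mul_le_mul hεa hV (norm_nonneg _) (le_trans (norm_nonneg _) hεa)
    have h4 : ε a * ∏ i ∈ s, w i = ε a / w a * (w a * ∏ i ∈ s, w i) := by
      field_simp
    calc _ ≤ w a * ((∑ i ∈ s, ε i / w i) * ∏ i ∈ s, w i) + ε a * ∏ i ∈ s, w i := add_le_add h2 h3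
      _ = _ := by rw [h4]; ring

/-- the product of the characteristic functions. -/
noncomputable def Psi {m : ℕ} (l : Fin m → ℝ) (ζ : ℝ) : ℂ := ∏ j, psi (l j) ζ

/-- the total variance. -/
noncomputable def Om {m : ℕ} (l : Fin m → ℝ) : ℝ := ∑ j, om (l j)

theorem one_add_sq_pos (ζ : ℝ) : 0 < 1 + ζ ^ 2 := by positivity

theorem norm_psi_le {l : ℝ} (hl : 0 < l) (ζ : ℝ) : ‖psi l ζ‖ ≤ (1 + ζ ^ 2) ^ (-om l / 2) := by
  have h := norm_psi_sq_le hl ζ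
  have ha := one_add_sq_pos ζ
  have e : (1 + ζ ^ 2) ^ (-om l) = ((1 + ζ ^ 2) ^ (-om l / 2)) ^ 2 := by
    rw [sq ((1 + ζ ^ 2) ^ (-om l / 2)), ← Real.rpow_add ha]
    congr 1
    ring
  rw [e] at h
  exact (sq_le_sq₀ (norm_nonneg _) (Real.rpow_nonneg ha.le _)).1 h

theorem exp_neg_le_rpow {w : ℝ} (hw : 0 ≤ w) (ζ : ℝ) :
    Real.exp (-(w * ζ ^ 2 / 2)) ≤ (1 + ζ ^ 2) ^ (-w / 2) := by
  have ha := one_add_sq_pos ζ
  rw [Real.rpow_def_of_pos ha]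
  apply Real.exp_le_exp.2
  have h := Real.log_le_sub_one_of_pos ha
  nlinarith

theorem norm_Psi_le {m : ℕ} {l : Fin m → ℝ} (hl : ∀ j, 0 < l j) (ζ : ℝ) :
    ‖Psi l ζ‖ ≤ (1 + ζ ^ 2) ^ (-Om l / 2) := by
  have ha := one_add_sq_pos ζ
  unfold Psi Om
  rw [norm_prod]
  refine le_trans (Finset.prod_le_prod (fun i _ => norm_nonneg _)
    (fun i _ => norm_psi_le (hl i) ζ)) (le_of_eq ?_)
  rw [← Real.rpow_sum_of_pos ha]
  congr 1
  rw [neg_div, Finset.sum_div, ← Finset.sum_neg_distrib]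
  apply Finset.sum_congr rfl
  intro i _
  ring

theorem Psi_gauss {m : ℕ} {l : Fin m → ℝ} (hl : ∀ j, 0 < l j) (ζ : ℝ) :
    ‖Psi l ζ - (Real.exp (-(Om l * ζ ^ 2 / 2)) : ℝ)‖ ≤
      Om l * (|ζ| ^ 3 / 2 + ζ ^ 4 / 8) * (1 + ζ ^ 2) ^ (-(Om l - 1) / 2) := by
  have ha := one_add_sq_pos ζ
  have ha1 : 1 ≤ 1 + ζ ^ 2 := by nlinarith [sq_nonneg ζ]
  set ε : ℝ := |ζ| ^ 3 / 2 + ζ ^ 4 / 8 with hε
  have hε0 : 0 ≤ ε := by positivity
  have h := prod_diff_aux Finset.univ (fun j => psi (l j) ζ)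
    (fun j => ((Real.exp (-(om (l j) * ζ ^ 2 / 2)) : ℝ) : ℂ))
    (fun j => (1 + ζ ^ 2) ^ (-om (l j) / 2)) (fun j => om (l j) * ε)
    (fun j _ => Real.rpow_pos_of_pos ha _) (fun j _ => norm_psi_le (hl j) ζ)
    (fun j _ => by
      rw [Complex.norm_real, Real.norm_of_nonneg (Real.exp_pos _).le]
      exact exp_neg_le_rpow (om_nonneg (hl j)) ζ)
    (fun j _ => psi_gauss (hl j) ζ)
  have e1 : ∏ j, ((Real.exp (-(om (l j) * ζ ^ 2 / 2)) : ℝ) : ℂ) =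
      ((Real.exp (-(Om l * ζ ^ 2 / 2)) : ℝ) : ℂ) := by
    rw [← Complex.ofReal_prod, ← Real.exp_sum]
    congr 2
    unfold Om
    rw [Finset.sum_mul, Finset.sum_div, ← Finset.sum_neg_distrib]
  have e2 : ∏ j, (1 + ζ ^ 2) ^ (-om (l j) / 2) = (1 + ζ ^ 2) ^ (-Om l / 2) := by
    rw [← Real.rpow_sum_of_pos ha]
    congr 1
    unfold Om
    rw [neg_div, Finset.sum_div, ← Finset.sum_neg_distrib]
    apply Finset.sum_congr rfl
    intro i _
    ring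
  rw [e1, e2] at h
  refine le_trans h ?_
  have h3 : ∑ j, om (l j) * ε / (1 + ζ ^ 2) ^ (-om (l j) / 2) ≤
      Om l * ε * (1 + ζ ^ 2) ^ ((1 : ℝ) / 2) := by
    unfold Om
    rw [Finset.sum_mul, Finset.sum_mul]
    apply Finset.sum_le_sum
    intro j _
    have h4 : om (l j) * ε / (1 + ζ ^ 2) ^ (-om (l j) / 2) =
        om (l j) * ε * (1 + ζ ^ 2) ^ (om (l j) / 2) := by
      rw [neg_div, Real.rpow_neg ha.le, div_inv_eq_mul]
    rw [h4]
    apply mul_le_mul_of_nonneg_left _ (mul_nonneg (om_nonneg (hl j)) hε0)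
    apply Real.rpow_le_rpow_of_exponent_le ha1
    have := om_le_one (l j)
    linarith
  have h5 : (1 + ζ ^ 2) ^ (-(Om l - 1) / 2) =
      (1 + ζ ^ 2) ^ ((1 : ℝ) / 2) * (1 + ζ ^ 2) ^ (-Om l / 2) := by
    rw [← Real.rpow_add ha]
    congr 1
    ring
  rw [h5, ← mul_assoc]
  exact mul_le_mul_of_nonneg_right h3 (Real.rpow_nonneg ha.le _)

end Pool.Agent.H64.Slab
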