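import Pool.Agent.H64.Slab.Om

set_option autoImplicit false

open MeasureTheory Set Filter Topology Complex

namespace Pool.Agent.H64.Slab

theorem norm_aux {f f' : ℝ → ℂ} {B B' : ℝ → ℝ} (hf : ∀ x, HasDerivAt f (f' x) x)
    (hB : ∀ x, HasDerivAt B (B' x) x) (h0 : ‖f 0‖ ≤ B 0) (h : ∀ x, 0 ≤ x → ‖f' x‖ ≤ B' x) :
    ∀ x, 0 ≤ x → ‖f x‖ ≤ B x := by
  intro x hx
  have := image_norm_le_of_norm_deriv_right_le_deriv_boundary' (f := f) (a := 0) (b := x)
    (fun y _ => (hf y).continuousAt.continuousWithinAt) (fun y _ => (hf y).hasDerivWithinAt)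
    h0 (fun y _ => (hB y).continuousAt.continuousWithinAt) (fun y _ => (hB y).hasDerivWithinAt)
    (fun y hy => h y hy.1)
  exact this ⟨hx, le_rfl⟩

theorem hasDerivAt_expI (x : ℝ) : HasDerivAt (fun x : ℝ => cexp (x * I)) (cexp (x * I) * I) x := by
  have h1 : HasDerivAt (fun v : ℝ => (v : ℂ) * I) (1 * I) x := by
    exact ((hasDerivAt_id x).ofReal_comp).mul_const I
  have := h1.cexp
  simpa using this

theorem hasDerivAt_ofReal' (x : ℝ) : HasDerivAt (fun x : ℝ => (x : ℂ)) 1 x := by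
  simpa using (hasDerivAt_id x).ofReal_comp

theorem expI_1 : ∀ x : ℝ, 0 ≤ x → ‖cexp (x * I) - 1‖ ≤ x := by
  apply norm_aux (f' := fun x => cexp (x * I) * I) (B' := fun _ => 1)
  · intro x
    simpa using (hasDerivAt_expI x).sub_const 1
  · exact fun x => hasDerivAt_id x
  · simp
  · intro x _
    rw [norm_mul, Complex.norm_exp_ofReal_mul_I]; simp

theorem expI_2 : ∀ x : ℝ, 0 ≤ x → ‖cexp (x * I) - 1 - x * I‖ ≤ x ^ 2 / 2 := by
  apply norm_aux (f' := fun x => (cexp (x * I) - 1) * I) (B' := fun x => x)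
  · intro x
    have := ((hasDerivAt_expI x).sub_const 1).sub ((hasDerivAt_ofReal' x).mul_const I)
    refine this.congr_deriv ?_
    ring
  · intro x
    have := (hasDerivAt_pow 2 x).div_const 2
    refine this.congr_deriv ?_
    norm_num
  · simp
  · intro x hx
    rw [norm_mul, Complex.norm_I, mul_one]
    exact expI_1 x hx

theorem expI_3 : ∀ x : ℝ, 0 ≤ x → ‖cexp (x * I) - 1 - x * I + x ^ 2 / 2‖ ≤ x ^ 3 / 6 := by
  apply norm_aux (f' := fun x => (cexp (x * I) - 1 - x * I) * I) (B' := fun x => x ^ 2 / 2)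
  · intro x
    have := (((hasDerivAt_expI x).sub_const 1).sub ((hasDerivAt_ofReal' x).mul_const I)).add
      (((hasDerivAt_ofReal' x).pow 2).div_const 2)
    refine this.congr_deriv ?_
    simp only [Nat.cast_ofNat]
    have hI : I * I = -1 := I_mul_I
    linear_combination (x : ℂ) * hI
  · intro x
    have := (hasDerivAt_pow 3 x).div_const 6
    refine this.congr_deriv ?_
    norm_num
    ring
  · simp
  · intro x hx
    rw [norm_mul, Complex.norm_I, mul_one]
    exact expI_2 x hx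

theorem expI_bound (x : ℝ) : ‖cexp (x * I) - 1 - x * I + x ^ 2 / 2‖ ≤ |x| ^ 3 / 6 := by
  rcases le_total 0 x with h | h
  · rw [abs_of_nonneg h]; exact expI_3 x h
  · have h1 := expI_3 (-x) (by linarith)
    rw [abs_of_nonpos h]
    refine le_trans (le_of_eq ?_) h1
    rw [← Complex.norm_conj]
    congr 1
    simp only [map_add, map_sub, map_mul, map_pow, map_div₀, map_one, conj_I, conj_ofReal,
      ← Complex.exp_conj, map_ofNat]
    push_cast
    ring_nf

/-- moments of the tilted measure. -/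
theorem mom0 (l : ℝ) : ∫ s in (-l)..l, Real.exp s = 2 * Real.sinh l := by
  rw [integral_exp, Real.sinh_eq]; ring

theorem mom1 (l : ℝ) : ∫ s in (-l)..l, s * Real.exp s = 2 * l * Real.cosh l - 2 * Real.sinh l := by
  have h : ∀ s : ℝ, HasDerivAt (fun s : ℝ => (s - 1) * Real.exp s) (s * Real.exp s) s := by
    intro s
    have := ((hasDerivAt_id s).sub_const 1).mul (Real.hasDerivAt_exp s)
    refine this.congr_deriv ?_
    simp only [id]; ring
  rw [intervalIntegral.integral_eq_sub_of_hasDerivAt (fun x _ => h x)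
    ((by fun_prop : Continuous (fun s : ℝ => s * Real.exp s)).intervalIntegrable _ _)]
  rw [Real.sinh_eq, Real.cosh_eq]; ring

theorem mom2 (l : ℝ) : ∫ s in (-l)..l, s ^ 2 * Real.exp s =
    2 * (l ^ 2 + 2) * Real.sinh l - 4 * l * Real.cosh l := by
  have h : ∀ s : ℝ, HasDerivAt (fun s : ℝ => (s ^ 2 - 2 * s + 2) * Real.exp s)
      (s ^ 2 * Real.exp s) s := by
    intro s
    have := ((((hasDerivAt_pow 2 s)).sub ((hasDerivAt_id s).const_mul 2)).add_const 2).mul
      (Real.hasDerivAt_exp s)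
    refine this.congr_deriv ?_
    simp only [id, Pi.sub_apply]; norm_num; ring
  rw [intervalIntegral.integral_eq_sub_of_hasDerivAt (fun x _ => h x)
    ((by fun_prop : Continuous (fun s : ℝ => s ^ 2 * Real.exp s)).intervalIntegrable _ _)]
  rw [Real.sinh_eq, Real.cosh_eq]; ring

theorem cmom1 {l : ℝ} (hl : 0 < l) :
    ∫ s in (-l)..l, (s - ch l) * Real.exp s = 0 := by
  have hs := sinh_pos hl
  have e : (fun s : ℝ => (s - ch l) * Real.exp s) = fun s => s * Real.exp s - ch l * Real.exp s := by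
    ext s; ring
  rw [e, intervalIntegral.integral_sub, mom1, intervalIntegral.integral_const_mul, mom0]
  · unfold ch; field_simp; ring
  all_goals apply Continuous.intervalIntegrable; fun_prop

theorem cmom2 {l : ℝ} (hl : 0 < l) :
    ∫ s in (-l)..l, (s - ch l) ^ 2 * Real.exp s = 2 * Real.sinh l * om l := by
  have hs := sinh_pos hl
  have hc2 : Real.cosh l ^ 2 = Real.sinh l ^ 2 + 1 := Real.cosh_sq l
  have e : (fun s : ℝ => (s - ch l) ^ 2 * Real.exp s) = fun s =>
      s ^ 2 * Real.exp s - 2 * ch l * (s * Real.exp s) + ch l ^ 2 * Real.exp s := by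
    ext s; ring
  rw [e, intervalIntegral.integral_add, intervalIntegral.integral_sub, mom2,
    intervalIntegral.integral_const_mul, intervalIntegral.integral_const_mul, mom0, mom1]
  · unfold ch om
    field_simp
    have : Real.cosh l ^ 2 = Real.sinh l ^ 2 + 1 := hc2
    nlinarith [this]
  all_goals apply Continuous.intervalIntegrable; fun_prop

theorem ch_le {l : ℝ} (hl : 0 < l) : ch l ≤ l := by
  have h := ch_add_le (ρ := 0) hl (by norm_num)
  rw [zero_mul, add_zero] at h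
  have h1 : Real.sqrt (om l) ≤ 1 := Real.sqrt_le_one.2 (om_le_one l)
  nlinarith

theorem ch_nonneg {l : ℝ} (hl : 0 < l) : 0 ≤ ch l := by
  unfold ch
  have hs := sinh_pos hl
  rw [sub_nonneg, le_div_iff₀ hs, one_mul]
  -- sinh l ≤ l cosh l
  have key : ∀ y : ℝ, 0 ≤ y → Real.sinh y ≤ y * Real.cosh y := by
    apply Pool.Agent.H60.Slab.mono_aux (f := Real.cosh) (g := fun y => Real.cosh y + y * Real.sinh y)
    · exact Real.hasDerivAt_sinh
    · intro y
      have := (hasDerivAt_id y).mul (Real.hasDerivAt_cosh y)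
      refine this.congr_deriv ?_
      simp
    · simp
    · intro y hy
      have := mul_nonneg hy (Real.sinh_nonneg_iff.2 hy)
      linarith
  exact key l hl.le

/-- third absolute moment. -/
theorem cmom3 {l : ℝ} (hl : 0 < l) :
    ∫ s in (-l)..l, |s - ch l| ^ 3 * Real.exp s ≤ 3 * (2 * Real.sinh l * om l) := by
  rw [← cmom2 hl, ← intervalIntegral.integral_const_mul]
  set c := ch l with hc
  have hc1 : c ≤ l := ch_le hl
  have hc2 : l - 1 ≤ c := ch_ge hl
  have hc0 : 0 ≤ c := ch_nonneg hl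
  have hi : ∀ a b : ℝ, IntervalIntegrable (fun s => |s - c| ^ 3 * Real.exp s) volume a b := by
    intro a b; apply Continuous.intervalIntegrable; fun_prop
  have hj : ∀ a b : ℝ, IntervalIntegrable (fun s => 3 * ((s - c) ^ 2 * Real.exp s)) volume a b := by
    intro a b; apply Continuous.intervalIntegrable; fun_prop
  rw [← intervalIntegral.integral_add_adjacent_intervals (hi (-l) c) (hi c l),
    ← intervalIntegral.integral_add_adjacent_intervals (hj (-l) c) (hj c l)]
  apply add_le_add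
  · -- integrate by parts
    have h : ∀ s : ℝ, HasDerivAt (fun s : ℝ => (c - s) ^ 3 * Real.exp s)
        ((c - s) ^ 3 * Real.exp s - 3 * ((s - c) ^ 2 * Real.exp s)) s := by
      intro s
      have := (((hasDerivAt_id s).const_sub c).pow 3).mul (Real.hasDerivAt_exp s)
      refine this.congr_deriv ?_
      simp only [id, Pi.pow_apply]; norm_num; ring
    have h2 := intervalIntegral.integral_eq_sub_of_hasDerivAt (a := -l) (b := c) (fun x _ => h x)
      ((by fun_prop : Continuous (fun s : ℝ => (c - s) ^ 3 * Real.exp s -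
        3 * ((s - c) ^ 2 * Real.exp s))).intervalIntegrable _ _)
    rw [intervalIntegral.integral_sub] at h2
    · have h3 : ∫ s in (-l)..c, |s - c| ^ 3 * Real.exp s =
          ∫ s in (-l)..c, (c - s) ^ 3 * Real.exp s := by
        apply intervalIntegral.integral_congr
        intro s hs
        rw [uIcc_of_le (by linarith)] at hs
        simp only
        rw [abs_of_nonpos (by linarith [hs.2]), neg_sub]
      rw [h3]
      have h4 : 0 ≤ (c - -l) ^ 3 * Real.exp (-l) := by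
        apply mul_nonneg (pow_nonneg (by linarith) 3) (Real.exp_pos _).le
      have h5 : (c - c) ^ 3 * Real.exp c = 0 := by simp
      rw [h5] at h2
      linarith
    all_goals apply Continuous.intervalIntegrable; fun_prop
  · apply intervalIntegral.integral_mono_on hc1 (hi c l) (hj c l)
    intro s hs
    have h1 : 0 ≤ s - c := by linarith [hs.1]
    have h2 : s - c ≤ 1 := by linarith [hs.2]
    rw [abs_of_nonneg h1]
    have h3 : (s - c) ^ 3 ≤ 3 * (s - c) ^ 2 := by nlinarith [sq_nonneg (s - c)]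
    calc (s - c) ^ 3 * Real.exp s ≤ (3 * (s - c) ^ 2) * Real.exp s :=
          mul_le_mul_of_nonneg_right h3 (Real.exp_pos s).le
      _ = 3 * ((s - c) ^ 2 * Real.exp s) := by ring

/-- characteristic function of the centred tilted uniform variable. -/
noncomputable def psi (l ζ : ℝ) : ℂ :=
  Complex.sinh (l * (1 + ζ * I)) / (Real.sinh l * (1 + ζ * I)) * cexp (-(ch l * ζ : ℝ) * I)

theorem one_add_I_ne (ζ : ℝ) : (1 : ℂ) + ζ * I ≠ 0 := by
  intro h
  have := congrArg Complex.re h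
  simp at this

theorem norm_one_add_I_sq (ζ : ℝ) : ‖(1 : ℂ) + ζ * I‖ ^ 2 = 1 + ζ ^ 2 := by
  have h : (1 : ℂ) + ζ * I = ((1 : ℝ) : ℂ) + ζ * I := by simp
  rw [h, ← Complex.normSq_eq_norm_sq, Complex.normSq_add_mul_I]; ring

theorem norm_sinh_sq (l ζ : ℝ) :
    ‖Complex.sinh (l * (1 + ζ * I))‖ ^ 2 = Real.sinh l ^ 2 + Real.sin (l * ζ) ^ 2 := by
  have e : (l : ℂ) * (1 + ζ * I) = (l : ℂ) + ((l * ζ : ℝ) : ℂ) * I := by push_cast; ring
  rw [e, Complex.sinh_add, Complex.sinh_mul_I, Complex.cosh_mul_I]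
  rw [← Complex.ofReal_sinh, ← Complex.ofReal_cosh, ← Complex.ofReal_sin, ← Complex.ofReal_cos]
  have e2 : ((Real.sinh l : ℝ) : ℂ) * ((Real.cos (l * ζ) : ℝ) : ℂ) +
      ((Real.cosh l : ℝ) : ℂ) * (((Real.sin (l * ζ) : ℝ) : ℂ) * I) =
      ((Real.sinh l * Real.cos (l * ζ) : ℝ) : ℂ) + ((Real.cosh l * Real.sin (l * ζ) : ℝ) : ℂ) * I := by
    push_cast; ring
  rw [e2, ← Complex.normSq_eq_norm_sq, Complex.normSq_add_mul_I]
  have h1 := Real.cosh_sq l
  have h2 := Real.sin_sq_add_cos_sq (l * ζ)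
  rw [mul_pow, mul_pow, h1]
  nlinarith [h2]

theorem norm_psi_sq {l : ℝ} (hl : 0 < l) (ζ : ℝ) :
    ‖psi l ζ‖ ^ 2 = (1 + Real.sin (l * ζ) ^ 2 / Real.sinh l ^ 2) / (1 + ζ ^ 2) := by
  have hs := sinh_pos hl
  unfold psi
  rw [norm_mul, norm_div, norm_mul]
  have h1 : ‖cexp (-(ch l * ζ : ℝ) * I)‖ = 1 := by
    rw [← Complex.ofReal_neg, Complex.norm_exp_ofReal_mul_I]
  rw [h1, mul_one, div_pow, mul_pow, norm_sinh_sq, norm_one_add_I_sq, Complex.norm_real,
    Real.norm_of_nonneg hs.le]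
  field_simp

theorem norm_psi_sq_le {l : ℝ} (hl : 0 < l) (ζ : ℝ) :
    ‖psi l ζ‖ ^ 2 ≤ (1 + ζ ^ 2) ^ (-om l) := by
  rw [norm_psi_sq hl]
  exact modulus_ineq hl ζ

theorem psi_eq_integral {l : ℝ} (hl : 0 < l) (ζ : ℝ) :
    psi l ζ = (1 / (2 * Real.sinh l) : ℝ) *
      ∫ s in (-l)..l, (Real.exp s : ℂ) * cexp ((ζ * (s - ch l) : ℝ) * I) := by
  have hs := sinh_pos hl
  have hc := one_add_I_ne ζ
  have e : (fun s : ℝ => (Real.exp s : ℂ) * cexp ((ζ * (s - ch l) : ℝ) * I)) =
      fun s : ℝ => cexp (-(ch l * ζ : ℝ) * I) * cexp (((1 : ℂ) + ζ * I) * s) := by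
    ext s
    rw [Complex.ofReal_exp, ← Complex.exp_add, ← Complex.exp_add]
    congr 1
    push_cast; ring
  rw [e, intervalIntegral.integral_const_mul, integral_exp_mul_complex hc]
  have e3 : cexp (((1 : ℂ) + ζ * I) * (l : ℝ)) - cexp (((1 : ℂ) + ζ * I) * (-l : ℝ)) =
      2 * Complex.sinh (l * (1 + ζ * I)) := by
    unfold Complex.sinh
    push_cast
    rw [mul_comm (l : ℂ), mul_neg]
    ring
  rw [e3]
  unfold psi
  have hs' : (Real.sinh l : ℂ) ≠ 0 := by exact_mod_cast hs.ne'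
  push_cast
  push_cast at hs'
  field_simp

theorem psi_taylor {l : ℝ} (hl : 0 < l) (ζ : ℝ) :
    ‖psi l ζ - (1 - (om l * ζ ^ 2 / 2 : ℝ))‖ ≤ om l * |ζ| ^ 3 / 2 := by
  have hs := sinh_pos hl
  have hs' : (Real.sinh l : ℂ) ≠ 0 := by exact_mod_cast hs.ne'
  set c := ch l with hc
  have e : (1 : ℂ) - (om l * ζ ^ 2 / 2 : ℝ) = (1 / (2 * Real.sinh l) : ℝ) *
      ∫ s in (-l)..l, (((Real.exp s + 0) - ζ ^ 2 / 2 * ((s - c) ^ 2 * Real.exp s) : ℝ) : ℂ) := by
    rw [intervalIntegral.integral_ofReal]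
    rw [intervalIntegral.integral_sub, intervalIntegral.integral_const_mul, hc, cmom2 hl]
    · simp only [add_zero]
      rw [mom0]
      push_cast
      push_cast at hs'
      field_simp
    all_goals apply Continuous.intervalIntegrable; fun_prop
  have e1 : (0 : ℂ) = (1 / (2 * Real.sinh l) : ℝ) *
      ∫ s in (-l)..l, ((ζ * ((s - c) * Real.exp s) : ℝ) : ℂ) * I := by
    rw [intervalIntegral.integral_mul_const, intervalIntegral.integral_ofReal,
      intervalIntegral.integral_const_mul, hc, cmom1 hl]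
    simp
  have e2 : psi l ζ - (1 - (om l * ζ ^ 2 / 2 : ℝ)) = (1 / (2 * Real.sinh l) : ℝ) *
      ∫ s in (-l)..l, (Real.exp s : ℂ) * (cexp ((ζ * (s - c) : ℝ) * I) - 1 -
        (ζ * (s - c) : ℝ) * I + ((ζ * (s - c) : ℝ) : ℂ) ^ 2 / 2) := by
    rw [psi_eq_integral hl, ← hc, e, ← mul_sub,
      show ∀ a b : ℂ, a * b = a * b - 0 by intro a b; ring, e1, ← mul_sub]
    congr 1
    rw [← intervalIntegral.integral_sub, ← intervalIntegral.integral_sub]
    · apply intervalIntegral.integral_congr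
      intro s _
      simp only
      push_cast
      ring
    all_goals apply Continuous.intervalIntegrable; fun_prop
  rw [e2, norm_mul, Complex.norm_real, Real.norm_of_nonneg (by positivity)]
  have h1 : ‖∫ s in (-l)..l, (Real.exp s : ℂ) * (cexp ((ζ * (s - c) : ℝ) * I) - 1 -
        (ζ * (s - c) : ℝ) * I + ((ζ * (s - c) : ℝ) : ℂ) ^ 2 / 2)‖ ≤
      ∫ s in (-l)..l, |ζ| ^ 3 / 6 * (|s - c| ^ 3 * Real.exp s) := by
    apply intervalIntegral.norm_integral_le_of_norm_le (by linarith)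
    · refine Eventually.of_forall fun s _ => ?_
      rw [norm_mul, Complex.norm_real, Real.norm_of_nonneg (Real.exp_pos s).le]
      have := expI_bound (ζ * (s - c))
      calc Real.exp s * ‖cexp ((ζ * (s - c) : ℝ) * I) - 1 -
            (ζ * (s - c) : ℝ) * I + ((ζ * (s - c) : ℝ) : ℂ) ^ 2 / 2‖
          ≤ Real.exp s * (|ζ * (s - c)| ^ 3 / 6) :=
            mul_le_mul_of_nonneg_left this (Real.exp_pos s).le
        _ = |ζ| ^ 3 / 6 * (|s - c| ^ 3 * Real.exp s) := by rw [abs_mul]; ring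
    · apply Continuous.intervalIntegrable; fun_prop
  rw [intervalIntegral.integral_const_mul] at h1
  have h2 := cmom3 hl
  rw [← hc] at h2
  have h3 : 0 ≤ |ζ| ^ 3 / 6 := by positivity
  calc 1 / (2 * Real.sinh l) * _ ≤ 1 / (2 * Real.sinh l) *
        (|ζ| ^ 3 / 6 * (3 * (2 * Real.sinh l * om l))) := by
          apply mul_le_mul_of_nonneg_left _ (by positivity)
          exact le_trans h1 (mul_le_mul_of_nonneg_left h2 h3)
    _ = om l * |ζ| ^ 3 / 2 := by field_simp; ring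

theorem exp_neg_taylor {x : ℝ} (hx : 0 ≤ x) : |Real.exp (-x) - (1 - x)| ≤ x ^ 2 / 2 := by
  have h1 := Pool.Agent.H60.Slab.exp_lb1 x hx
  have h2 := Pool.Agent.H60.Slab.exp_ub2 x hx
  rw [abs_le]
  constructor
  · nlinarith [sq_nonneg x]
  · linarith

theorem psi_gauss {l : ℝ} (hl : 0 < l) (ζ : ℝ) :
    ‖psi l ζ - (Real.exp (-(om l * ζ ^ 2 / 2)) : ℝ)‖ ≤ om l * (|ζ| ^ 3 / 2 + ζ ^ 4 / 8) := by
  have h0 := om_nonneg hl
  have h00 := om_le_one l
  have h1 := psi_taylor hl ζ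
  have h2 := exp_neg_taylor (x := om l * ζ ^ 2 / 2) (by positivity)
  have h3 : ‖((1 : ℂ) - (om l * ζ ^ 2 / 2 : ℝ)) - (Real.exp (-(om l * ζ ^ 2 / 2)) : ℝ)‖ ≤
      om l * (ζ ^ 4 / 8) := by
    have e : ((1 : ℂ) - (om l * ζ ^ 2 / 2 : ℝ)) - (Real.exp (-(om l * ζ ^ 2 / 2)) : ℝ) =
        ((-(Real.exp (-(om l * ζ ^ 2 / 2)) - (1 - om l * ζ ^ 2 / 2)) : ℝ) : ℂ) := by
      push_cast; ring
    rw [e, Complex.norm_real, Real.norm_eq_abs, abs_neg]
    refine le_trans h2 ?_
    have h5 : om l ^ 2 ≤ om l := by nlinarith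
    have h6 : (om l * ζ ^ 2 / 2) ^ 2 / 2 = om l ^ 2 * (ζ ^ 4 / 8) := by ring
    rw [h6]
    exact mul_le_mul_of_nonneg_right h5 (by positivity)
  have h4 : psi l ζ - (Real.exp (-(om l * ζ ^ 2 / 2)) : ℝ) =
      (psi l ζ - (1 - (om l * ζ ^ 2 / 2 : ℝ))) +
      (((1 : ℂ) - (om l * ζ ^ 2 / 2 : ℝ)) - (Real.exp (-(om l * ζ ^ 2 / 2)) : ℝ)) := by ring
  rw [h4]
  refine le_trans (norm_add_le _ _) ?_
  linarith

end Pool.Agent.H64.Slab
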